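import Pool.Agent.W5h80.Bil.C

set_option autoImplicit false

/-! Additive energies of families with a bilinear part: the bound. -/

namespace Pool.Agent.W5h80.Bil
open Finset

/-- the additive energy of order `h` of a family of integers -/
noncomputable def EnZ (h : ℕ) {ι : Type} [Fintype ι] (v : ι → ℤ) : ℕ :=
  Nat.card {q : (Fin h → ι) × (Fin h → ι) // ∑ j, v (q.1 j) = ∑ j, v (q.2 j)}

lemma energy_le_moment {M : ℕ} [NeZero M] (H : ℕ) {ι : Type} [Fintype ι] (v : ι → ℤ) :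
    (EnZ H v : ℝ) * M ≤ ∑ t : ZMod M, ‖∑ i, e t (v i)‖ ^ (2 * H) := by
  classical
  have h1 : ((∑ t : ZMod M, ‖∑ i, e t (v i)‖ ^ (2 * H) : ℝ) : ℂ) =
      (((M : ℝ) * ((univ.filter (fun q : (Fin H → ι) × (Fin H → ι) =>
        ((∑ j, v (q.1 j) - ∑ j, v (q.2 j) : ℤ) : ZMod M) = 0)).card : ℝ) : ℝ) : ℂ) := by
    rw [Complex.ofReal_sum, sum_congr rfl fun t _ => moment t H v, sum_comm,
      sum_congr rfl fun q _ => sum_e _, ← sum_filter, sum_const, nsmul_eq_mul]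
    push_cast
    ring
  have h2 := Complex.ofReal_injective h1
  rw [h2, mul_comm]
  apply mul_le_mul_of_nonneg_left _ (Nat.cast_nonneg _)
  unfold EnZ
  rw [Nat.card_eq_fintype_card, Fintype.card_subtype]
  have h3 : (univ.filter (fun q : (Fin H → ι) × (Fin H → ι) => ∑ j, v (q.1 j) = ∑ j, v (q.2 j))).card ≤
      (univ.filter (fun q : (Fin H → ι) × (Fin H → ι) =>
        ((∑ j, v (q.1 j) - ∑ j, v (q.2 j) : ℤ) : ZMod M) = 0)).card := by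
    apply card_le_card
    intro q hq
    rw [mem_filter] at hq ⊢
    refine ⟨mem_univ _, ?_⟩
    rw [hq.2, sub_self, Int.cast_zero]
  exact_mod_cast h3

set_option maxHeartbeats 4000000 in
/-- the moments of the sum of the weights -/
lemma sum_G {M : ℕ} [NeZero M] (R K s : ℕ) (hR : 1 ≤ R) (hK : 1 ≤ K) (hs : 1 ≤ s) (κ : ℤ) (hκ : κ ≠ 0)
    (hM : 2 * κ.natAbs * R * K < M) :
    ∑ t : ZMod M, G R K κ t ^ (s + 1) ≤ M * (((K : ℝ) / 2) ^ (s + 1) * (3 ^ s * ((2 * K : ℝ) ^ (s + 1) + (4 * R : ℝ) ^ (s + 1) +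
      16 * (4 * R * K : ℝ) ^ s * ((1 + Real.log R) * (1 + Real.log K))))) := by
  classical
  have hR1 : (1 : ℝ) ≤ R := by exact_mod_cast hR
  have hK1 : (1 : ℝ) ≤ K := by exact_mod_cast hK
  have hR0 : (0 : ℝ) < R := by linarith
  have hK0 : (0 : ℝ) < K := by linarith
  have hlR : 0 ≤ Real.log R := Real.log_nonneg hR1
  have hlK : 0 ≤ Real.log K := Real.log_nonneg hK1
  obtain ⟨ℓ, hℓ⟩ : ∃ ℓ, ℓ = (1 + Real.log R) * (1 + Real.log K) := ⟨_, rfl⟩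
  have hℓ0 : 0 ≤ ℓ := by rw [hℓ]; positivity
  rw [← hℓ]
  have h1 : ∀ t : ZMod M, G R K κ t ^ (s + 1) ≤ 3 ^ s * ((K : ℝ) ^ 2) ^ (s + 1) + 3 ^ s * (2 * R * K : ℝ) ^ (s + 1) +
      3 ^ s * ((2 * R * K ^ 2 : ℝ) ^ (s - 1) * ‖G2 R K κ t‖ ^ 2) := by
    intro t
    have a1 := G_eq R K κ t
    have a2 := G2_le R K κ t
    have a3 := pow_le_pow_left₀ (G_nonneg R K κ t) a1 (s + 1)
    have a4 := pow_mean (univ : Finset (Fin 3)) (fun i => ![(K : ℝ) ^ 2, 2 * R * K, ‖G2 R K κ t‖] i) (by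
      intro i _
      fin_cases i
      · show 0 ≤ (K : ℝ) ^ 2
        positivity
      · show 0 ≤ (2 * R * K : ℝ)
        positivity
      · show 0 ≤ ‖G2 R K κ t‖
        exact norm_nonneg _) (s + 1) (by omega)
    simp only [Fin.sum_univ_three, card_univ, Fintype.card_fin, Nat.add_sub_cancel, Matrix.cons_val_zero,
      Matrix.cons_val_one, Matrix.cons_val] at a4
    have a5 : ‖G2 R K κ t‖ ^ (s + 1) ≤ (2 * R * K ^ 2 : ℝ) ^ (s - 1) * ‖G2 R K κ t‖ ^ 2 := by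
      have e1 : s + 1 = (s - 1) + 2 := by omega
      rw [e1, pow_add]
      exact mul_le_mul_of_nonneg_right (pow_le_pow_left₀ (norm_nonneg _) a2 _) (by positivity)
    have a6 : (3 : ℝ) ^ s * ‖G2 R K κ t‖ ^ (s + 1) ≤ 3 ^ s * ((2 * R * K ^ 2 : ℝ) ^ (s - 1) * ‖G2 R K κ t‖ ^ 2) :=
      mul_le_mul_of_nonneg_left a5 (by positivity)
    push_cast at a4
    calc G R K κ t ^ (s + 1) ≤ _ := a3
      _ ≤ _ := a4
      _ ≤ _ := by linarith
  have h2 := sum_G2 R K κ hκ hM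
  have hDR := card_D R
  have hDK := card_D K
  have h3 : (16 * (D R).card * (D K).card * (K * K) : ℝ) ≤ 16 * R * K ^ 3 * ℓ := by
    have h4 : ((D R).card : ℝ) * (D K).card ≤ (R * (1 + Real.log R)) * (K * (1 + Real.log K)) :=
      mul_le_mul hDR hDK (Nat.cast_nonneg _) (by positivity)
    calc (16 * (D R).card * (D K).card * (K * K) : ℝ) = 16 * (K * K) * ((D R).card * (D K).card) := by ring
      _ ≤ 16 * (K * K) * ((R * (1 + Real.log R)) * (K * (1 + Real.log K))) := mul_le_mul_of_nonneg_left h4 (by positivity)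
      _ = _ := by rw [hℓ]; ring
  have h5 : ∑ t : ZMod M, ‖G2 R K κ t‖ ^ 2 ≤ M * (16 * R * K ^ 3 * ℓ) :=
    h2.trans (mul_le_mul_of_nonneg_left h3 (Nat.cast_nonneg _))
  have h6 := sum_le_sum (fun t (_ : t ∈ (univ : Finset (ZMod M))) => h1 t)
  rw [sum_add_distrib, sum_add_distrib, sum_const, sum_const, card_univ, ZMod.card, nsmul_eq_mul, nsmul_eq_mul,
    ← mul_sum, ← mul_sum] at h6
  refine h6.trans ?_
  have h7 : (3 : ℝ) ^ s * ((2 * R * K ^ 2 : ℝ) ^ (s - 1) * ∑ t : ZMod M, ‖G2 R K κ t‖ ^ 2) ≤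
      3 ^ s * ((2 * R * K ^ 2 : ℝ) ^ (s - 1) * (M * (16 * R * K ^ 3 * ℓ))) :=
    mul_le_mul_of_nonneg_left (mul_le_mul_of_nonneg_left h5 (by positivity)) (by positivity)
  refine (add_le_add_right h7 _).trans (le_of_eq ?_)
  obtain ⟨r, rfl⟩ : ∃ r, s = r + 1 := ⟨s - 1, by omega⟩
  rw [Nat.add_sub_cancel]
  have e1 : ((K : ℝ) / 2) ^ (r + 1 + 1) * (2 * K : ℝ) ^ (r + 1 + 1) = ((K : ℝ) ^ 2) ^ (r + 1 + 1) := by
    rw [← mul_pow]
    congr 1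
    ring
  have e2 : ((K : ℝ) / 2) ^ (r + 1 + 1) * (4 * R : ℝ) ^ (r + 1 + 1) = (2 * R * K : ℝ) ^ (r + 1 + 1) := by
    rw [← mul_pow]
    congr 1
    ring
  have e3 : ((K : ℝ) / 2) ^ (r + 1 + 1) * (16 * (4 * R * K : ℝ) ^ (r + 1) * ℓ) =
      (2 * R * K ^ 2 : ℝ) ^ r * (16 * R * K ^ 3 * ℓ) := by
    have e4 : ((K : ℝ) / 2) ^ r * (4 * R * K : ℝ) ^ r = (2 * R * K ^ 2 : ℝ) ^ r := by
      rw [← mul_pow]
      congr 1
      ring
    rw [← e4]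
    ring
  calc (M : ℝ) * (3 ^ (r + 1) * ((K : ℝ) ^ 2) ^ (r + 1 + 1)) + M * (3 ^ (r + 1) * (2 * R * K : ℝ) ^ (r + 1 + 1)) +
        3 ^ (r + 1) * ((2 * R * K ^ 2 : ℝ) ^ r * (M * (16 * R * K ^ 3 * ℓ)))
      = M * (3 ^ (r + 1) * (((K : ℝ) ^ 2) ^ (r + 1 + 1) + (2 * R * K : ℝ) ^ (r + 1 + 1) +
        (2 * R * K ^ 2 : ℝ) ^ r * (16 * R * K ^ 3 * ℓ))) := by ring
    _ = M * (3 ^ (r + 1) * (((K : ℝ) / 2) ^ (r + 1 + 1) * (2 * K : ℝ) ^ (r + 1 + 1) +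
        ((K : ℝ) / 2) ^ (r + 1 + 1) * (4 * R : ℝ) ^ (r + 1 + 1) +
        ((K : ℝ) / 2) ^ (r + 1 + 1) * (16 * (4 * R * K : ℝ) ^ (r + 1) * ℓ))) := by rw [e1, e2, e3]
    _ = _ := by ring

lemma log_aux (a P R : ℝ) (ha : 1 ≤ a) (hP : 1 ≤ P) (hR : 1 ≤ R) (h : R ≤ a * P) :
    1 + Real.log R ≤ (1 + Real.log a) * (1 + Real.log P) := by
  have hla : 0 ≤ Real.log a := Real.log_nonneg ha
  have hlP : 0 ≤ Real.log P := Real.log_nonneg hP
  have h3 : Real.log R ≤ Real.log a + Real.log P := by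
    rw [← Real.log_mul (by positivity) (by positivity)]
    exact Real.log_le_log (by linarith) h
  have h4 : 0 ≤ Real.log a * Real.log P := mul_nonneg hla hlP
  linarith

lemma bracket (s : ℕ) (a c0 c1 c2 c3 P X Y R K : ℝ) (ha : 1 ≤ a) (hc0 : 0 ≤ c0) (hc1 : 0 ≤ c1) (hc2 : 1 ≤ c2)
    (hc3 : c3 = 2 * c1 ^ (s + 1) + 16 * (4 * c0) ^ s * c2 ^ 2) (hca : c2 = 1 + Real.log a) (hX : 1 ≤ X) (hY : 1 ≤ Y)
    (hP : P = X * Y) (hP1 : 1 ≤ P) (hXY : X ≤ Y ^ s) (hYX : Y ≤ X ^ s) (hR1 : 1 ≤ R) (hK1 : 1 ≤ K)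
    (hRK : R * K = c0 * P) (hK : 2 * K = c1 * Y) (hR : 4 * R = c1 * X) (hRa : R ≤ a * X) (hKa : K = a * Y) :
    (2 * K) ^ (s + 1) + (4 * R) ^ (s + 1) + 16 * (4 * R * K) ^ s * ((1 + Real.log R) * (1 + Real.log K)) ≤
      c3 * P ^ s * (1 + Real.log P) ^ 2 := by
  have hlP : 0 ≤ Real.log P := Real.log_nonneg hP1
  have hYs : Y ^ (s + 1) ≤ P ^ s := by
    rw [hP, mul_pow, pow_succ, mul_comm (X ^ s)]
    exact mul_le_mul_of_nonneg_left hYX (by positivity)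
  have hXs : X ^ (s + 1) ≤ P ^ s := by
    rw [hP, mul_pow, pow_succ]
    exact mul_le_mul_of_nonneg_left hXY (by positivity)
  have h1 : (2 * K) ^ (s + 1) ≤ c1 ^ (s + 1) * P ^ s := by
    rw [hK, mul_pow]
    exact mul_le_mul_of_nonneg_left hYs (by positivity)
  have h2 : (4 * R) ^ (s + 1) ≤ c1 ^ (s + 1) * P ^ s := by
    rw [hR, mul_pow]
    exact mul_le_mul_of_nonneg_left hXs (by positivity)
  have hXP : X ≤ P := by rw [hP]; exact le_mul_of_one_le_right (by linarith) hY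
  have hYP : Y ≤ P := by rw [hP]; exact le_mul_of_one_le_left (by linarith) hX
  have hlR : 1 + Real.log R ≤ c2 * (1 + Real.log P) := by
    rw [hca]
    exact log_aux a P R ha hP1 hR1 (hRa.trans (mul_le_mul_of_nonneg_left hXP (by linarith)))
  have hlK : 1 + Real.log K ≤ c2 * (1 + Real.log P) := by
    rw [hca]
    exact log_aux a P K ha hP1 hK1 (by rw [hKa]; exact mul_le_mul_of_nonneg_left hYP (by linarith))
  have hlR0 : 0 ≤ 1 + Real.log R := by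
    have : 0 ≤ Real.log R := Real.log_nonneg hR1
    linarith
  have hlK0 : 0 ≤ 1 + Real.log K := by
    have : 0 ≤ Real.log K := Real.log_nonneg hK1
    linarith
  have h3 : 16 * (4 * R * K) ^ s * ((1 + Real.log R) * (1 + Real.log K)) ≤
      16 * (4 * c0) ^ s * c2 ^ 2 * P ^ s * (1 + Real.log P) ^ 2 := by
    have e1 : 4 * R * K = 4 * c0 * P := by rw [mul_assoc, hRK]; ring
    rw [e1, mul_pow (4 * c0)]
    have h4 : (1 + Real.log R) * (1 + Real.log K) ≤ (c2 * (1 + Real.log P)) * (c2 * (1 + Real.log P)) :=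
      mul_le_mul hlR hlK hlK0 (by positivity)
    calc 16 * ((4 * c0) ^ s * P ^ s) * ((1 + Real.log R) * (1 + Real.log K))
        ≤ 16 * ((4 * c0) ^ s * P ^ s) * ((c2 * (1 + Real.log P)) * (c2 * (1 + Real.log P))) :=
          mul_le_mul_of_nonneg_left h4 (by positivity)
      _ = _ := by ring
  have h5 : (1 : ℝ) ≤ (1 + Real.log P) ^ 2 := one_le_pow₀ (by linarith)
  have h6 : 2 * c1 ^ (s + 1) * P ^ s ≤ 2 * c1 ^ (s + 1) * P ^ s * (1 + Real.log P) ^ 2 :=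
    le_mul_of_one_le_right (by positivity) h5
  rw [hc3]
  calc (2 * K) ^ (s + 1) + (4 * R) ^ (s + 1) + 16 * (4 * R * K) ^ s * ((1 + Real.log R) * (1 + Real.log K))
      ≤ 2 * c1 ^ (s + 1) * P ^ s * (1 + Real.log P) ^ 2 + 16 * (4 * c0) ^ s * c2 ^ 2 * P ^ s * (1 + Real.log P) ^ 2 := by
        linarith
    _ = _ := by ring

set_option maxHeartbeats 4000000 in
/-- **The energy of a family with a bilinear part.** -/
theorem bil_energy (d h s B : ℕ) (hd : 1 ≤ d) (hh : 1 ≤ h) (hs : 1 ≤ s) (hB : 1 ≤ B) (κ : ℤ) (hκ : κ ≠ 0) :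
    ∃ C : ℝ, 0 < C ∧ ∀ X Y : ℕ, 1 ≤ X → 1 ≤ Y → X ≤ Y ^ s → Y ≤ X ^ s →
      ∀ (ι lam : Type) [Fintype ι] [Fintype lam] (x : ι → Fin d → ℤ) (y : lam → Fin d → ℤ) (f : ι → ℤ) (g : lam → ℤ),
      (∀ i k, |x i k| ≤ B * X) → (∀ j k, |y j k| ≤ B * Y) → ∀ L : ℝ, 0 ≤ L →
      (EnV h x : ℝ) * X ^ d ≤ L * (Fintype.card ι : ℝ) ^ (2 * h) →
      (EnV h y : ℝ) * Y ^ d ≤ L * (Fintype.card lam : ℝ) ^ (2 * h) →
      (EnZ (2 * h ^ 2 * (s + 1)) (fun p : ι × lam => f p.1 + g p.2 + κ * dot (x p.1) (y p.2)) : ℝ) * (X * Y) ≤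
        C * L ^ (2 * (s + 1)) * (1 + Real.log (X * Y)) ^ 2 *
          (Fintype.card (ι × lam) : ℝ) ^ (2 * (2 * h ^ 2 * (s + 1))) := by
  classical
  obtain ⟨c0, hc0⟩ : ∃ c0 : ℝ, c0 = 8 * h ^ 2 * B ^ 2 := ⟨_, rfl⟩
  obtain ⟨c1, hc1⟩ : ∃ c1 : ℝ, c1 = 8 * h * B := ⟨_, rfl⟩
  obtain ⟨c2, hc2⟩ : ∃ c2 : ℝ, c2 = 1 + Real.log (4 * h * B) := ⟨_, rfl⟩
  obtain ⟨c3, hc3⟩ : ∃ c3 : ℝ, c3 = 2 * c1 ^ (s + 1) + 16 * (4 * c0) ^ s * c2 ^ 2 := ⟨_, rfl⟩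
  have hhr : (1 : ℝ) ≤ h := by exact_mod_cast hh
  have hBr : (1 : ℝ) ≤ B := by exact_mod_cast hB
  have hc0p : 0 < c0 := by rw [hc0]; positivity
  have hc1p : 0 < c1 := by rw [hc1]; positivity
  have h4hB : (1 : ℝ) ≤ 4 * h * B := by nlinarith
  have hl4 : 0 ≤ Real.log (4 * h * B) := Real.log_nonneg h4hB
  have hc2p : 1 ≤ c2 := by rw [hc2]; linarith
  have hc3p : 0 < c3 := by rw [hc3]; positivity
  refine ⟨(6 * c0) ^ ((s + 1) * (d - 1)) * 3 ^ s * c3, by positivity, ?_⟩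
  intro X Y hX hY hXY hYX ι lam _ _ x y f g hx hy L hL hEx hEy
  have hXr : (1 : ℝ) ≤ X := by exact_mod_cast hX
  have hYr : (1 : ℝ) ≤ Y := by exact_mod_cast hY
  obtain ⟨P, hP⟩ : ∃ P : ℝ, P = X * Y := ⟨_, rfl⟩
  have hP1 : 1 ≤ P := by rw [hP]; nlinarith
  have hlP : 0 ≤ Real.log P := Real.log_nonneg hP1
  obtain ⟨R, hR⟩ : ∃ R : ℕ, R = 2 * h * (B * X) := ⟨_, rfl⟩
  obtain ⟨K, hK⟩ : ∃ K : ℕ, K = 2 * (2 * h * (B * Y)) := ⟨_, rfl⟩
  have hhB : 0 < h * B := Nat.mul_pos hh hB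
  have hR1 : 1 ≤ R := by rw [hR]; exact Nat.mul_pos (by omega) (Nat.mul_pos hB hX)
  have hK1 : 1 ≤ K := by rw [hK]; exact Nat.mul_pos (by omega) (Nat.mul_pos (by omega) (Nat.mul_pos hB hY))
  have hRr : (R : ℝ) = 2 * h * B * X := by rw [hR]; push_cast; ring
  have hKr : (K : ℝ) = 4 * h * B * Y := by rw [hK]; push_cast; ring
  obtain ⟨M, hM⟩ : ∃ M : ℕ, M = 2 * κ.natAbs * R * K + 1 := ⟨_, rfl⟩
  have : NeZero M := ⟨by omega⟩
  have hM0 : (0 : ℝ) < M := by exact_mod_cast (by omega : 0 < M)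
  obtain ⟨v, hv⟩ : ∃ v : ι × lam → ℤ, v = fun p => f p.1 + g p.2 + κ * dot (x p.1) (y p.2) := ⟨_, rfl⟩
  obtain ⟨I, hI⟩ : ∃ I : ℝ, I = Fintype.card ι := ⟨_, rfl⟩
  obtain ⟨J, hJ⟩ : ∃ J : ℝ, J = Fintype.card lam := ⟨_, rfl⟩
  have hI0 : 0 ≤ I := by rw [hI]; positivity
  have hJ0 : 0 ≤ J := by rw [hJ]; positivity
  have hcard : (Fintype.card (ι × lam) : ℝ) = I * J := by rw [Fintype.card_prod, hI, hJ]; push_cast; rfl
  rw [← hI] at hEx
  rw [← hJ] at hEy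
  rw [hcard, ← hv, ← hP]
  obtain ⟨Θ, hΘ⟩ : ∃ Θ : ℝ, Θ = I ^ (2 * h * (2 * h - 1)) * J ^ (2 * h * (2 * h - 1)) * (EnV h x * EnV h y) := ⟨_, rfl⟩
  have hΘ0 : 0 ≤ Θ := by rw [hΘ]; positivity
  have hKp : (0 : ℝ) < (K : ℝ) / 2 := by
    have : (0 : ℝ) < K := by exact_mod_cast hK1
    linarith
  have hmain : ∀ t : ZMod M, ((K : ℝ) / 2) ^ d * ‖∑ p : ι × lam, e t (v p)‖ ^ (2 * h * (2 * h)) ≤ Θ * (G R K κ t) ^ d := by
    intro t
    have := main_ineq hh x y f g κ (B * X) (B * Y) K (by push_cast; exact hx) (by push_cast; exact hy) (by rw [hK]) t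
    rw [← hI, ← hJ, ← hR, ← hΘ] at this
    rw [hv]
    exact this
  have hRK : (R : ℝ) * K = c0 * P := by rw [hRr, hKr, hc0, hP]; ring
  have hGmax : ∀ t : ZMod M, G R K κ t ≤ (K : ℝ) / 2 * (6 * (c0 * P)) := by
    intro t
    have h1 := G_le R K κ t
    have h2 : (1 : ℝ) ≤ R := by exact_mod_cast hR1
    rw [← hRK]
    have h3 : (2 * (R : ℝ) + 1) * K ^ 2 ≤ 3 * R * K ^ 2 := mul_le_mul_of_nonneg_right (by linarith) (by positivity)
    calc G R K κ t ≤ _ := h1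
      _ ≤ _ := h3
      _ = _ := by ring
  have hpow : ∀ t : ZMod M, (((K : ℝ) / 2) ^ d) ^ (s + 1) * ‖∑ p : ι × lam, e t (v p)‖ ^ (2 * (2 * h ^ 2 * (s + 1))) ≤
      Θ ^ (s + 1) * (((K : ℝ) / 2 * (6 * (c0 * P))) ^ ((s + 1) * (d - 1)) * G R K κ t ^ (s + 1)) := by
    intro t
    have h1 := pow_le_pow_left₀ (by positivity) (hmain t) (s + 1)
    have h2 : ((((K : ℝ) / 2) ^ d * ‖∑ p : ι × lam, e t (v p)‖ ^ (2 * h * (2 * h))) ^ (s + 1)) =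
        (((K : ℝ) / 2) ^ d) ^ (s + 1) * ‖∑ p : ι × lam, e t (v p)‖ ^ (2 * (2 * h ^ 2 * (s + 1))) := by
      rw [mul_pow, ← pow_mul (‖∑ p : ι × lam, e t (v p)‖)]
      congr 2
      ring
    rw [h2, mul_pow, ← pow_mul (G R K κ t)] at h1
    refine h1.trans ?_
    apply mul_le_mul_of_nonneg_left _ (by positivity)
    have h3 : d * (s + 1) = (s + 1) * (d - 1) + (s + 1) := by
      obtain ⟨d', rfl⟩ : ∃ d', d = d' + 1 := ⟨d - 1, by omega⟩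
      rw [Nat.add_sub_cancel]
      ring
    rw [h3, pow_add]
    exact mul_le_mul_of_nonneg_right (pow_le_pow_left₀ (G_nonneg R K κ t) (hGmax t) _) (pow_nonneg (G_nonneg R K κ t) _)
  have hsum := sum_le_sum (fun t (_ : t ∈ (univ : Finset (ZMod M))) => hpow t)
  rw [← mul_sum, ← mul_sum, ← mul_sum] at hsum
  have hG := sum_G (M := M) R K s hR1 hK1 hs κ hκ (by omega)
  -- the bracket
  obtain ⟨W, hW⟩ : ∃ W : ℝ, W = (2 * K : ℝ) ^ (s + 1) + (4 * R : ℝ) ^ (s + 1) +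
      16 * (4 * R * K : ℝ) ^ s * ((1 + Real.log R) * (1 + Real.log K)) := ⟨_, rfl⟩
  rw [← hW] at hG
  have hWle : W ≤ c3 * P ^ s * (1 + Real.log P) ^ 2 := by
    rw [hW]
    exact bracket s (4 * h * B) c0 c1 c2 c3 P (X : ℝ) Y R K h4hB hc0p.le hc1p.le hc2p hc3 (by rw [hc2]) hXr hYr hP hP1
      (by exact_mod_cast hXY) (by exact_mod_cast hYX) (by exact_mod_cast hR1) (by exact_mod_cast hK1) hRK
      (by rw [hKr, hc1]; ring) (by rw [hRr, hc1]; ring)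
      (by rw [hRr]; have : (0 : ℝ) ≤ h * B * X := by positivity
          linarith) (by rw [hKr])
  have hW0 : 0 ≤ 3 ^ s * W := by
    have hlR0 : 0 ≤ Real.log R := Real.log_nonneg (by exact_mod_cast hR1)
    have hlK0 : 0 ≤ Real.log K := Real.log_nonneg (by exact_mod_cast hK1)
    rw [hW]
    positivity
  -- combination
  have hE := energy_le_moment (M := M) (2 * h ^ 2 * (s + 1)) v
  have k1 : (((K : ℝ) / 2) ^ d) ^ (s + 1) * ((EnZ (2 * h ^ 2 * (s + 1)) v : ℝ) * M) ≤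
      Θ ^ (s + 1) * (((K : ℝ) / 2 * (6 * (c0 * P))) ^ ((s + 1) * (d - 1)) * (M * (((K : ℝ) / 2) ^ (s + 1) * (3 ^ s * W)))) := by
    refine (mul_le_mul_of_nonneg_left hE (by positivity)).trans (hsum.trans ?_)
    apply mul_le_mul_of_nonneg_left _ (by positivity)
    exact mul_le_mul_of_nonneg_left hG (by positivity)
  have k2 : Θ ^ (s + 1) * (((K : ℝ) / 2 * (6 * (c0 * P))) ^ ((s + 1) * (d - 1)) * (M * (((K : ℝ) / 2) ^ (s + 1) * (3 ^ s * W)))) =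
      (((K : ℝ) / 2) ^ d) ^ (s + 1) * ((Θ ^ (s + 1) * ((6 * (c0 * P)) ^ ((s + 1) * (d - 1)) * (3 ^ s * W))) * M) := by
    have e1 : (((K : ℝ) / 2) ^ d) ^ (s + 1) = ((K : ℝ) / 2) ^ ((s + 1) * (d - 1)) * ((K : ℝ) / 2) ^ (s + 1) := by
      rw [← pow_mul, ← pow_add]
      congr 1
      obtain ⟨d', rfl⟩ : ∃ d', d = d' + 1 := ⟨d - 1, by omega⟩
      rw [Nat.add_sub_cancel]
      ring
    rw [e1, mul_pow ((K : ℝ) / 2)]
    ring
  rw [k2] at k1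
  have k3 : (EnZ (2 * h ^ 2 * (s + 1)) v : ℝ) ≤ Θ ^ (s + 1) * ((6 * (c0 * P)) ^ ((s + 1) * (d - 1)) * (3 ^ s * W)) := by
    have := le_of_mul_le_mul_left k1 (by positivity)
    exact le_of_mul_le_mul_right this hM0
  have k4 : Θ * P ^ d ≤ L ^ 2 * (I * J) ^ (2 * h * (2 * h)) := by
    have e1 : 2 * h * (2 * h) = 2 * h * (2 * h - 1) + 2 * h := by
      obtain ⟨h', rfl⟩ : ∃ h', h = h' + 1 := ⟨h - 1, by omega⟩
      have : 2 * (h' + 1) - 1 = 2 * h' + 1 := by omega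
      rw [this]
      ring
    calc Θ * P ^ d = I ^ (2 * h * (2 * h - 1)) * J ^ (2 * h * (2 * h - 1)) * (((EnV h x : ℝ) * X ^ d) * ((EnV h y : ℝ) * Y ^ d)) := by
          rw [hΘ, hP, mul_pow (X : ℝ)]
          ring
      _ ≤ I ^ (2 * h * (2 * h - 1)) * J ^ (2 * h * (2 * h - 1)) * ((L * I ^ (2 * h)) * (L * J ^ (2 * h))) := by
          apply mul_le_mul_of_nonneg_left _ (by positivity)
          exact mul_le_mul hEx hEy (by positivity) (by positivity)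
      _ = _ := by
          rw [e1, mul_pow I, pow_add I, pow_add J]
          ring
  have k5 := pow_le_pow_left₀ (by positivity) k4 (s + 1)
  have e5 : (L ^ 2 * (I * J) ^ (2 * h * (2 * h))) ^ (s + 1) = L ^ (2 * (s + 1)) * (I * J) ^ (2 * (2 * h ^ 2 * (s + 1))) := by
    rw [mul_pow, ← pow_mul, ← pow_mul]
    congr 2
    ring
  rw [e5] at k5
  calc (EnZ (2 * h ^ 2 * (s + 1)) v : ℝ) * P
      ≤ (Θ ^ (s + 1) * ((6 * (c0 * P)) ^ ((s + 1) * (d - 1)) * (3 ^ s * W))) * P :=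
        mul_le_mul_of_nonneg_right k3 (by positivity)
    _ ≤ (Θ ^ (s + 1) * ((6 * (c0 * P)) ^ ((s + 1) * (d - 1)) * (3 ^ s * (c3 * P ^ s * (1 + Real.log P) ^ 2)))) * P := by
        apply mul_le_mul_of_nonneg_right _ (by positivity)
        apply mul_le_mul_of_nonneg_left _ (by positivity)
        apply mul_le_mul_of_nonneg_left _ (by positivity)
        exact mul_le_mul_of_nonneg_left hWle (by positivity)
    _ = ((6 * c0) ^ ((s + 1) * (d - 1)) * 3 ^ s * c3) * (1 + Real.log P) ^ 2 * (Θ * P ^ d) ^ (s + 1) := by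
        have e6 : (6 * (c0 * P)) ^ ((s + 1) * (d - 1)) = (6 * c0) ^ ((s + 1) * (d - 1)) * P ^ ((s + 1) * (d - 1)) := by
          rw [← mul_pow]
          congr 1
          ring
        have e7 : (Θ * P ^ d) ^ (s + 1) = Θ ^ (s + 1) * (P ^ ((s + 1) * (d - 1)) * P ^ s * P) := by
          rw [mul_pow, ← pow_mul, ← pow_add, ← pow_succ]
          congr 2
          obtain ⟨d', rfl⟩ : ∃ d', d = d' + 1 := ⟨d - 1, by omega⟩
          rw [Nat.add_sub_cancel]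
          ring
        rw [e6, e7]
        ring
    _ ≤ ((6 * c0) ^ ((s + 1) * (d - 1)) * 3 ^ s * c3) * (1 + Real.log P) ^ 2 *
          (L ^ (2 * (s + 1)) * (I * J) ^ (2 * (2 * h ^ 2 * (s + 1)))) :=
        mul_le_mul_of_nonneg_left k5 (by positivity)
    _ = _ := by ring

end Pool.Agent.W5h80.Bil
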