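import Pool.Agent.W5h80.Bil.D
import Pool.Agent.TH935.GF2

set_option autoImplicit false

/-! Additive energies of families with a bilinear part: reduction of statements about thin families. -/

namespace Pool.Agent.W5h80.Bil
open Finset
open Pool.Agent.TH935.GF (En)

/-- a statement about thin families of integers holds for families with a bilinear part -/
theorem bil_transfer (d h s B C : ℕ) (hd : 1 ≤ d) (hh : 1 ≤ h) (hs : 1 ≤ s) (κ : ℤ) (hκ : κ ≠ 0)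
    (Q : ℕ → ∀ (ι : Type) [Fintype ι] (_ : ι → ℤ), Prop)
    (H : ∀ B C : ℕ, ∃ N₀ : ℕ, ∀ N : ℕ, N₀ ≤ N → ∀ (ι : Type) [Fintype ι] (v : ι → ℤ),
      (∀ i, v i ≤ B * N) →
      (En (2 * h ^ 2 * (s + 1)) v : ℝ) * N ≤ Real.log N ^ C * (Fintype.card ι : ℝ) ^ (2 * (2 * h ^ 2 * (s + 1))) →
      Q N ι v) :
    ∃ N₀ : ℕ, ∀ X Y : ℕ, N₀ ≤ X * Y → X ≤ Y ^ s → Y ≤ X ^ s →
      ∀ (ι lam : Type) [Fintype ι] [Fintype lam] (x : ι → Fin d → ℤ) (y : lam → Fin d → ℤ) (f : ι → ℤ) (g : lam → ℤ),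
      (∀ i k, |x i k| ≤ B * X) → (∀ j k, |y j k| ≤ B * Y) →
      (∀ i j, f i + g j + κ * dot (x i) (y j) ≤ B * (X * Y)) →
      (EnV h x : ℝ) * X ^ d ≤ Real.log (X * Y) ^ C * (Fintype.card ι : ℝ) ^ (2 * h) →
      (EnV h y : ℝ) * Y ^ d ≤ Real.log (X * Y) ^ C * (Fintype.card lam : ℝ) ^ (2 * h) →
      Q (X * Y) (ι × lam) (fun p => f p.1 + g p.2 + κ * dot (x p.1) (y p.2)) := by
  classical
  obtain ⟨c, hc, hb⟩ := bil_energy d h s (B + 1) hd hh hs (by omega) κ hκ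
  obtain ⟨n0, h0⟩ := H B (2 * (s + 1) * C + 3)
  obtain ⟨n1, h1⟩ := Pool.Agent.H373R2.T7.ev_L' (4 * c + 1)
  refine ⟨n0 + n1 + 1, ?_⟩
  intro X Y hN hXY hYX ι lam _ _ x y f g hx hy hv hEx hEy
  have hXY0 : 0 < X * Y := by omega
  have hX : 1 ≤ X := Nat.pos_of_mul_pos_right hXY0
  have hY : 1 ≤ Y := Nat.pos_of_mul_pos_left hXY0
  have hL := h1 (X * Y) (by omega)
  have hq := h0 (X * Y) (by omega)
  push_cast at hL hq
  obtain ⟨ℓ, hℓ⟩ : ∃ ℓ, ℓ = Real.log ((X : ℝ) * Y) := ⟨_, rfl⟩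
  rw [← hℓ] at hL hEx hEy hq
  have hℓ1 : 1 ≤ ℓ := by linarith
  have hℓ0 : 0 < ℓ := by linarith
  refine hq (ι × lam) _ (fun p => hv p.1 p.2) ?_
  have hx' : ∀ i k, |x i k| ≤ ((B + 1 : ℕ) : ℤ) * X := by
    intro i k
    have := hx i k
    have h3 : (0 : ℤ) ≤ X := by positivity
    push_cast
    linarith
  have hy' : ∀ j k, |y j k| ≤ ((B + 1 : ℕ) : ℤ) * Y := by
    intro j k
    have := hy j k
    have h3 : (0 : ℤ) ≤ Y := by positivity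
    push_cast
    linarith
  have key := hb X Y hX hY hXY hYX ι lam x y f g hx' hy' (ℓ ^ C) (by positivity) hEx hEy
  rw [← hℓ] at key
  have hE : (En (2 * h ^ 2 * (s + 1)) (fun p : ι × lam => f p.1 + g p.2 + κ * dot (x p.1) (y p.2)) : ℝ) =
      EnZ (2 * h ^ 2 * (s + 1)) (fun p : ι × lam => f p.1 + g p.2 + κ * dot (x p.1) (y p.2)) := rfl
  rw [hE]
  refine key.trans ?_
  apply mul_le_mul_of_nonneg_right _ (by positivity)
  have e1 : ℓ ^ (2 * (s + 1) * C + 3) = (ℓ ^ C) ^ (2 * (s + 1)) * ℓ ^ 3 := by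
    rw [← pow_mul, ← pow_add]
    congr 1
    ring
  rw [e1]
  have e2 : c * (1 + ℓ) ^ 2 ≤ ℓ ^ 3 := by
    have e3 : (1 + ℓ) ^ 2 ≤ 4 * ℓ ^ 2 := by nlinarith
    calc c * (1 + ℓ) ^ 2 ≤ c * (4 * ℓ ^ 2) := mul_le_mul_of_nonneg_left e3 hc.le
      _ = (4 * c) * ℓ ^ 2 := by ring
      _ ≤ ℓ * ℓ ^ 2 := mul_le_mul_of_nonneg_right (by linarith) (by positivity)
      _ = ℓ ^ 3 := by ring
  calc c * (ℓ ^ C) ^ (2 * (s + 1)) * (1 + ℓ) ^ 2 = (ℓ ^ C) ^ (2 * (s + 1)) * (c * (1 + ℓ) ^ 2) := by ring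
    _ ≤ (ℓ ^ C) ^ (2 * (s + 1)) * ℓ ^ 3 := mul_le_mul_of_nonneg_left e2 (by positivity)

end Pool.Agent.W5h80.Bil
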