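import Pool.Agent.W5h80.Bil.D
import Pool.Agent.H373R2.T7.BilH

set_option autoImplicit false

/-! Correlations with shifts in thin families: the basic inequality. -/

namespace Pool.Agent.W5h80.Bil
open Finset
open Pool.Agent.H373R2.T7 (exI SupSmall)
open Pool.Agent.H807R2.Dav (ee)

section
variable {M : ℕ} [NeZero M]

lemma e_eq_ee (t : ZMod M) (m : ℤ) : e t m = ee ((m : ℝ) * ((t.val : ℝ) / M)) := by
  unfold e ee
  have h1 : t * (m : ZMod M) = ((m * (t.val : ℤ) : ℤ) : ZMod M) := by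
    push_cast
    rw [ZMod.natCast_zmod_val, mul_comm]
  rw [h1, ZMod.stdAddChar_coe]
  congr 1
  push_cast
  ring

/-- Parseval -/
lemma parseval (S : Finset ℕ) (g : ℕ → ℂ) (hS : ∀ a ∈ S, ∀ b ∈ S, |(a : ℤ) - b| < M) :
    ∑ t : ZMod M, ‖∑ a ∈ S, g a * e t a‖ ^ 2 = M * ∑ a ∈ S, ‖g a‖ ^ 2 := by
  classical
  apply Complex.ofReal_injective
  rw [Complex.ofReal_sum]
  have h1 : ∀ t : ZMod M, ((‖∑ a ∈ S, g a * e t a‖ ^ 2 : ℝ) : ℂ) =
      ∑ a ∈ S, ∑ b ∈ S, (g a * starRingEnd ℂ (g b)) * e t ((a : ℤ) - b) := by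
    intro t
    rw [Complex.ofReal_pow, ← Complex.mul_conj', map_sum, sum_mul_sum]
    refine sum_congr rfl fun a _ => sum_congr rfl fun b _ => ?_
    rw [e_sub, map_mul]
    ring
  rw [sum_congr rfl fun t _ => h1 t, sum_comm]
  push_cast
  rw [mul_sum]
  refine sum_congr rfl fun a ha => ?_
  rw [sum_comm, sum_eq_single a]
  · rw [← mul_sum, sum_e, sub_self, Int.cast_zero, if_pos rfl, Complex.mul_conj']
    ring
  · intro b hb hba
    rw [← mul_sum, sum_e, if_neg, mul_zero]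
    intro h3
    rw [ZMod.intCast_zmod_eq_zero_iff_dvd] at h3
    have := Int.eq_zero_of_abs_lt_dvd h3 (hS a ha b hb)
    apply hba
    omega
  · intro h3
    exact absurd ha h3

lemma moment_c (t : ZMod M) (h : ℕ) {ι : Type} [Fintype ι] (v : ι → ℤ) (c : ι → ℂ) :
    ((‖∑ i, c i * e t (v i)‖ ^ (2 * h) : ℝ) : ℂ) =
      ∑ q : (Fin h → ι) × (Fin h → ι), ((∏ j, c (q.1 j)) * starRingEnd ℂ (∏ j, c (q.2 j))) *
        e t (∑ j, v (q.1 j) - ∑ j, v (q.2 j)) := by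
  classical
  have h1 : (∑ i, c i * e t (v i)) ^ h = ∑ p : Fin h → ι, (∏ j, c (p j)) * e t (∑ j, v (p j)) := by
    rw [Fintype.sum_pow]
    refine sum_congr rfl fun p _ => ?_
    rw [prod_mul_distrib, e_sum]
  rw [pow_mul, Complex.ofReal_pow, Complex.ofReal_pow, ← Complex.mul_conj', mul_pow, ← map_pow, h1, map_sum,
    sum_mul_sum, ← univ_product_univ, sum_product]
  refine sum_congr rfl fun p _ => sum_congr rfl fun q _ => ?_
  rw [e_sub, map_mul]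
  ring

lemma moment_le (h : ℕ) {ι : Type} [Fintype ι] (v : ι → ℤ) (c : ι → ℂ) (hc : ∀ i, ‖c i‖ ≤ 1) (R : ℕ)
    (hv : ∀ i, |v i| ≤ R) (hM : 2 * h * R < M) :
    ∑ t : ZMod M, ‖∑ i, c i * e t (v i)‖ ^ (2 * h) ≤ M * EnZ h v := by
  classical
  have h0 : (0 : ℝ) ≤ ∑ t : ZMod M, ‖∑ i, c i * e t (v i)‖ ^ (2 * h) := sum_nonneg fun t _ => by positivity
  have h1 : ((∑ t : ZMod M, ‖∑ i, c i * e t (v i)‖ ^ (2 * h) : ℝ) : ℂ) =
      ∑ q : (Fin h → ι) × (Fin h → ι), ((∏ j, c (q.1 j)) * starRingEnd ℂ (∏ j, c (q.2 j))) *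
        (if ∑ j, v (q.1 j) = ∑ j, v (q.2 j) then (M : ℂ) else 0) := by
    rw [Complex.ofReal_sum, sum_congr rfl fun t _ => moment_c t h v c, sum_comm]
    refine sum_congr rfl fun q _ => ?_
    rw [← mul_sum, sum_e]
    congr 2
    rw [ZMod.intCast_zmod_eq_zero_iff_dvd]
    apply propext
    constructor
    · intro h3
      have h4 : |∑ j, v (q.1 j) - ∑ j, v (q.2 j)| < M := by
        have key : ∀ p : Fin h → ι, |∑ j, v (p j)| ≤ h * R := by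
          intro p
          calc |∑ j, v (p j)| ≤ ∑ j, |v (p j)| := abs_sum_le_sum_abs _ _
            _ ≤ ∑ _j : Fin h, (R : ℤ) := sum_le_sum fun j _ => hv _
            _ = h * R := by rw [sum_const, card_univ, Fintype.card_fin, nsmul_eq_mul]
        have hM' : (2 * h * R : ℤ) < M := by exact_mod_cast hM
        calc |∑ j, v (q.1 j) - ∑ j, v (q.2 j)| ≤ |∑ j, v (q.1 j)| + |∑ j, v (q.2 j)| := abs_sub _ _
          _ ≤ h * R + h * R := add_le_add (key _) (key _)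
          _ < M := by linarith
      have := Int.eq_zero_of_abs_lt_dvd h3 h4
      omega
    · intro h3
      rw [h3, sub_self]
      exact dvd_zero _
  have h2 : ‖((∑ t : ZMod M, ‖∑ i, c i * e t (v i)‖ ^ (2 * h) : ℝ) : ℂ)‖ ≤ M * EnZ h v := by
    rw [h1]
    refine (norm_sum_le _ _).trans ?_
    have h5 : ∀ q : (Fin h → ι) × (Fin h → ι), ‖((∏ j, c (q.1 j)) * starRingEnd ℂ (∏ j, c (q.2 j))) *
        (if ∑ j, v (q.1 j) = ∑ j, v (q.2 j) then (M : ℂ) else 0)‖ ≤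
        if ∑ j, v (q.1 j) = ∑ j, v (q.2 j) then (M : ℝ) else 0 := by
      intro q
      have hp : ∀ p : Fin h → ι, ‖∏ j, c (p j)‖ ≤ 1 := by
        intro p
        rw [norm_prod]
        exact prod_le_one (fun j _ => norm_nonneg _) (fun j _ => hc _)
      rw [norm_mul, norm_mul, RCLike.norm_conj]
      have h6 : ‖∏ j, c (q.1 j)‖ * ‖∏ j, c (q.2 j)‖ ≤ 1 := mul_le_one₀ (hp _) (norm_nonneg _) (hp _)
      split_ifs with h7
      · rw [Complex.norm_natCast]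
        exact mul_le_of_le_one_left (Nat.cast_nonneg _) h6
      · rw [norm_zero, mul_zero]
    refine (sum_le_sum fun q _ => h5 q).trans (le_of_eq ?_)
    rw [← sum_filter, sum_const, nsmul_eq_mul]
    unfold EnZ
    rw [Nat.card_eq_fintype_card, Fintype.card_subtype, mul_comm]
  rwa [Complex.norm_real, Real.norm_of_nonneg h0] at h2

lemma corr_eq (f g : ℕ → ℂ) (x Z : ℕ) {ι : Type} [Fintype ι] (v : ι → ℤ) (c : ι → ℂ)
    (hZ : ∀ i, x + v i ≤ Z) (hM : ∀ i, ∀ n ∈ Icc 1 x, ∀ m ∈ Icc 1 Z, |(n : ℤ) + v i - (m : ℤ)| < M) :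
    ∑ t : ZMod M, (∑ n ∈ Icc 1 x, g n * e t n) * (∑ i, c i * e t (v i)) *
      starRingEnd ℂ (∑ m ∈ Icc 1 Z, starRingEnd ℂ (f m) * e t m) =
      M * ∑ i, c i * ∑ n ∈ Icc 1 x, g n * exI f (n + v i) := by
  classical
  have h1 : ∀ t : ZMod M, (∑ n ∈ Icc 1 x, g n * e t n) * (∑ i, c i * e t (v i)) *
      starRingEnd ℂ (∑ m ∈ Icc 1 Z, starRingEnd ℂ (f m) * e t m) =
      ∑ i, ∑ n ∈ Icc 1 x, ∑ m ∈ Icc 1 Z, (c i * g n * f m) * e t (n + v i - m) := by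
    intro t
    rw [mul_comm (∑ n ∈ Icc 1 x, g n * e t n), sum_mul_sum, map_sum, sum_mul]
    refine sum_congr rfl fun i _ => ?_
    rw [sum_mul]
    refine sum_congr rfl fun n _ => ?_
    rw [mul_sum]
    refine sum_congr rfl fun m _ => ?_
    rw [e_sub, e_add, map_mul, Complex.conj_conj]
    ring
  rw [sum_congr rfl fun t _ => h1 t, sum_comm, mul_sum]
  refine sum_congr rfl fun i _ => ?_
  rw [sum_comm, mul_sum, mul_sum]
  refine sum_congr rfl fun n hn => ?_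
  rw [sum_comm]
  have h2 : ∀ m ∈ Icc 1 Z, ∑ t : ZMod M, (c i * g n * f m) * e t (n + v i - m) =
      if (m : ℤ) = n + v i then M * (c i * g n * f m) else 0 := by
    intro m hm
    rw [← mul_sum, sum_e]
    have h3 : (((n : ℤ) + v i - (m : ℤ) : ℤ) : ZMod M) = 0 ↔ (m : ℤ) = n + v i := by
      rw [ZMod.intCast_zmod_eq_zero_iff_dvd]
      constructor
      · intro h4
        have := Int.eq_zero_of_abs_lt_dvd h4 (hM i n hn m hm)
        omega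
      · intro h4
        rw [h4, sub_self]
        exact dvd_zero _
    by_cases h4 : (m : ℤ) = n + v i
    · rw [if_pos (h3.2 h4), if_pos h4]
      ring
    · rw [if_neg (fun h5 => h4 (h3.1 h5)), if_neg h4, mul_zero]
  rw [sum_congr rfl h2]
  unfold exI
  by_cases h5 : 1 ≤ (n : ℤ) + v i
  · rw [if_pos h5, sum_eq_single ((n : ℤ) + v i).toNat]
    · rw [if_pos (by omega)]
      ring
    · intro m _ hm
      rw [if_neg]
      intro h6
      apply hm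
      omega
    · intro h6
      exfalso
      apply h6
      rw [mem_Icc]
      have := hZ i
      rw [mem_Icc] at hn
      constructor <;> omega
  · rw [if_neg h5, mul_zero, mul_zero, mul_zero]
    apply sum_eq_zero
    intro m hm
    rw [if_neg]
    intro h6
    rw [mem_Icc] at hm
    omega

end

/-- the weighted power mean inequality -/
lemma wpow {α : Type} (s : Finset α) (w z : α → ℝ) (hw : ∀ i ∈ s, 0 ≤ w i) (hz : ∀ i ∈ s, 0 ≤ z i) (n : ℕ)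
    (hn : 1 ≤ n) : (∑ i ∈ s, w i * z i) ^ n ≤ (∑ i ∈ s, w i) ^ (n - 1) * ∑ i ∈ s, w i * z i ^ n := by
  obtain ⟨W, hW⟩ : ∃ W, W = ∑ i ∈ s, w i := ⟨_, rfl⟩
  have hW0 : 0 ≤ W := by rw [hW]; exact sum_nonneg hw
  rw [← hW]
  rcases hW0.eq_or_lt with h0 | h0
  · have h1 : ∀ i ∈ s, w i = 0 := by
      rw [← sum_eq_zero_iff_of_nonneg hw, ← hW, ← h0]
    rw [sum_eq_zero (fun i hi => by rw [h1 i hi, zero_mul]), sum_eq_zero (fun i hi => by rw [h1 i hi, zero_mul]),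
      mul_zero, zero_pow (by omega)]
  · have h1 := Real.pow_arith_mean_le_arith_mean_pow s (fun i => w i / W) z (fun i hi => div_nonneg (hw i hi) hW0)
      (by rw [← sum_div, ← hW, div_self h0.ne']) hz n
    have e1 : ∑ i ∈ s, w i / W * z i = (∑ i ∈ s, w i * z i) / W := by
      rw [sum_div]
      exact sum_congr rfl fun i _ => by ring
    have e2 : ∑ i ∈ s, w i / W * z i ^ n = (∑ i ∈ s, w i * z i ^ n) / W := by
      rw [sum_div]
      exact sum_congr rfl fun i _ => by ring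
    rw [e1, e2, div_pow, div_le_div_iff₀ (by positivity) h0] at h1
    have e3 : W ^ n = W ^ (n - 1) * W := by
      rw [← pow_succ]
      congr 1
      omega
    rw [e3] at h1
    have h2 : (∑ i ∈ s, w i * z i) ^ n * W ≤ (W ^ (n - 1) * ∑ i ∈ s, w i * z i ^ n) * W := by linarith
    exact le_of_mul_le_mul_right h2 h0

/-- the inequality of Hölder -/
lemma holder3 {α : Type} (s : Finset α) (G V F : α → ℝ) (_hG : ∀ i ∈ s, 0 ≤ G i) (hV : ∀ i ∈ s, 0 ≤ V i)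
    (hF : ∀ i ∈ s, 0 ≤ F i) (S : ℝ) (hS : ∀ i ∈ s, F i ≤ S) (h : ℕ) (hh : 1 ≤ h) :
    (∑ i ∈ s, G i * V i * F i) ^ (2 * h) ≤
      (∑ i ∈ s, G i ^ 2) ^ h * ((∑ i ∈ s, F i ^ 2) ^ (h - 1) * (S ^ 2 * ∑ i ∈ s, V i ^ (2 * h))) := by
  have h1 : (∑ i ∈ s, G i * V i * F i) ^ 2 ≤ (∑ i ∈ s, G i ^ 2) * ∑ i ∈ s, F i ^ 2 * V i ^ 2 := by
    have := sum_mul_sq_le_sq_mul_sq s G (fun i => V i * F i)
    refine le_trans (le_of_eq ?_) (this.trans (le_of_eq ?_))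
    · congr 1
      exact sum_congr rfl fun i _ => by ring
    · congr 1
      exact sum_congr rfl fun i _ => by ring
  have h2 : (∑ i ∈ s, F i ^ 2 * V i ^ 2) ^ h ≤ (∑ i ∈ s, F i ^ 2) ^ (h - 1) * ∑ i ∈ s, F i ^ 2 * (V i ^ 2) ^ h :=
    wpow s (fun i => F i ^ 2) (fun i => V i ^ 2) (fun i _ => by positivity) (fun i _ => by positivity) h hh
  have h3 : ∑ i ∈ s, F i ^ 2 * (V i ^ 2) ^ h ≤ S ^ 2 * ∑ i ∈ s, V i ^ (2 * h) := by
    rw [mul_sum]
    refine sum_le_sum fun i hi => ?_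
    rw [← pow_mul]
    exact mul_le_mul_of_nonneg_right (pow_le_pow_left₀ (hF i hi) (hS i hi) 2) (pow_nonneg (hV i hi) _)
  have h0 : 0 ≤ ∑ i ∈ s, G i ^ 2 := sum_nonneg fun i _ => by positivity
  have h0' : 0 ≤ ∑ i ∈ s, F i ^ 2 := sum_nonneg fun i _ => by positivity
  rw [pow_mul]
  calc ((∑ i ∈ s, G i * V i * F i) ^ 2) ^ h ≤ ((∑ i ∈ s, G i ^ 2) * ∑ i ∈ s, F i ^ 2 * V i ^ 2) ^ h :=
        pow_le_pow_left₀ (by positivity) h1 h
    _ = (∑ i ∈ s, G i ^ 2) ^ h * (∑ i ∈ s, F i ^ 2 * V i ^ 2) ^ h := mul_pow _ _ _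
    _ ≤ (∑ i ∈ s, G i ^ 2) ^ h * ((∑ i ∈ s, F i ^ 2) ^ (h - 1) * ∑ i ∈ s, F i ^ 2 * (V i ^ 2) ^ h) :=
        mul_le_mul_of_nonneg_left h2 (by positivity)
    _ ≤ _ := mul_le_mul_of_nonneg_left (mul_le_mul_of_nonneg_left h3 (by positivity)) (by positivity)

/-- correlations with shifts in thin families -/
theorem thin_corr (f g : ℕ → ℂ) (hf : ∀ n, ‖f n‖ ≤ 1) (x Z R h : ℕ) (hh : 1 ≤ h) {ι : Type} [Fintype ι]
    (v : ι → ℤ) (c : ι → ℂ) (hc : ∀ i, ‖c i‖ ≤ 1) (hv : ∀ i, |v i| ≤ R) (hZ : x + R ≤ Z) (S Γ : ℝ)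
    (hS : ∀ α : ℝ, ‖∑ m ∈ Icc 1 Z, f m * ee ((m : ℝ) * α)‖ ≤ S) (hg : ∀ n ∈ Icc 1 x, ‖g n‖ ≤ Γ) :
    ‖∑ i, c i * ∑ n ∈ Icc 1 x, g n * exI f (n + v i)‖ ^ (2 * h) ≤
      (x * Γ ^ 2) ^ h * ((Z : ℝ) ^ (h - 1) * (S ^ 2 * EnZ h v)) := by
  classical
  obtain ⟨M, hM⟩ : ∃ M, M = x + Z + (2 * h + 1) * R + 1 := ⟨_, rfl⟩
  have : NeZero M := ⟨by omega⟩
  have hM0 : (0 : ℝ) < M := by exact_mod_cast (by omega : 0 < M)
  have hMr : 2 * h * R + R + x + Z + 1 = M := by rw [hM]; ring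
  obtain ⟨G, hG⟩ : ∃ G : ZMod M → ℂ, G = fun t => ∑ n ∈ Icc 1 x, g n * e t n := ⟨_, rfl⟩
  obtain ⟨V, hV⟩ : ∃ V : ZMod M → ℂ, V = fun t => ∑ i, c i * e t (v i) := ⟨_, rfl⟩
  obtain ⟨F, hF⟩ : ∃ F : ZMod M → ℂ, F = fun t => ∑ m ∈ Icc 1 Z, starRingEnd ℂ (f m) * e t m := ⟨_, rfl⟩
  have hFS : ∀ t, ‖F t‖ ≤ S := by
    intro t
    have h1 := hS (-((t.val : ℝ) / M))
    have h2 : starRingEnd ℂ (F t) = ∑ m ∈ Icc 1 Z, f m * ee ((m : ℝ) * (-((t.val : ℝ) / M))) := by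
      rw [hF]
      simp only
      rw [map_sum]
      refine sum_congr rfl fun m _ => ?_
      rw [map_mul, Complex.conj_conj, ← e_neg, e_eq_ee]
      congr 2
      push_cast
      ring
    rw [← h2, RCLike.norm_conj] at h1
    exact h1
  have c1 := corr_eq (M := M) f g x Z v c (fun i => by
    have h1 := abs_le.1 (hv i)
    have h2 : (x : ℤ) + R ≤ Z := by exact_mod_cast hZ
    linarith [h1.2]) (fun i n hn m hm => by
    have h1 := abs_le.1 (hv i)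
    rw [mem_Icc] at hn hm
    have h2 : (2 * h * R + R + x + Z + 1 : ℤ) = M := by exact_mod_cast hMr
    have h3 : (0 : ℤ) ≤ 2 * h * R := by positivity
    rw [abs_lt]
    constructor <;> linarith [h1.1, h1.2, (by exact_mod_cast hn.1 : (1 : ℤ) ≤ n),
      (by exact_mod_cast hn.2 : (n : ℤ) ≤ x), (by exact_mod_cast hm.1 : (1 : ℤ) ≤ m),
      (by exact_mod_cast hm.2 : (m : ℤ) ≤ Z)])
  obtain ⟨Sg, hSg⟩ : ∃ Sg : ℂ, Sg = ∑ i, c i * ∑ n ∈ Icc 1 x, g n * exI f (n + v i) := ⟨_, rfl⟩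
  rw [← hSg] at c1 ⊢
  have c2 : (M : ℝ) * ‖Sg‖ ≤ ∑ t : ZMod M, ‖G t‖ * ‖V t‖ * ‖F t‖ := by
    have h1 : (M : ℝ) * ‖Sg‖ = ‖(M : ℂ) * Sg‖ := by rw [norm_mul, Complex.norm_natCast]
    rw [h1, ← c1]
    refine (norm_sum_le _ _).trans (le_of_eq ?_)
    refine sum_congr rfl fun t _ => ?_
    rw [norm_mul, norm_mul, RCLike.norm_conj, hG, hV, hF]
  have c3 := holder3 (univ : Finset (ZMod M)) (fun t => ‖G t‖) (fun t => ‖V t‖) (fun t => ‖F t‖)
    (fun _ _ => norm_nonneg _) (fun _ _ => norm_nonneg _) (fun _ _ => norm_nonneg _) S (fun t _ => hFS t) h hh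
  have hx : (x : ℤ) ≤ M := by exact_mod_cast (by omega : x ≤ M)
  have hZM : (Z : ℤ) ≤ M := by exact_mod_cast (by omega : Z ≤ M)
  have pG : ∑ t : ZMod M, ‖G t‖ ^ 2 ≤ M * (x * Γ ^ 2) := by
    rw [hG]
    simp only
    have h1 := parseval (M := M) (Icc 1 x) g (fun a ha b hb => by
      rw [mem_Icc] at ha hb
      rw [abs_lt]
      constructor <;> omega)
    rw [h1]
    apply mul_le_mul_of_nonneg_left _ hM0.le
    calc ∑ a ∈ Icc 1 x, ‖g a‖ ^ 2 ≤ ∑ _a ∈ Icc 1 x, Γ ^ 2 :=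
          sum_le_sum fun a ha => pow_le_pow_left₀ (norm_nonneg _) (hg a ha) 2
      _ = x * Γ ^ 2 := by rw [sum_const, Nat.card_Icc, Nat.add_sub_cancel, nsmul_eq_mul]
  have pF : ∑ t : ZMod M, ‖F t‖ ^ 2 ≤ M * Z := by
    rw [hF]
    simp only
    have h1 := parseval (M := M) (Icc 1 Z) (fun m => starRingEnd ℂ (f m)) (fun a ha b hb => by
      rw [mem_Icc] at ha hb
      rw [abs_lt]
      constructor <;> omega)
    rw [h1]
    apply mul_le_mul_of_nonneg_left _ hM0.le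
    calc ∑ a ∈ Icc 1 Z, ‖starRingEnd ℂ (f a)‖ ^ 2 ≤ ∑ _a ∈ Icc 1 Z, (1 : ℝ) := by
          refine sum_le_sum fun a _ => ?_
          rw [RCLike.norm_conj]
          exact pow_le_one₀ (norm_nonneg _) (hf a)
      _ = Z := by rw [sum_const, Nat.card_Icc, Nat.add_sub_cancel, nsmul_eq_mul, mul_one]
  have pV : ∑ t : ZMod M, ‖V t‖ ^ (2 * h) ≤ M * EnZ h v := by
    rw [hV]
    exact moment_le h v c hc R hv (by omega)
  have c4 : ((M : ℝ) * ‖Sg‖) ^ (2 * h) ≤ (M * (x * Γ ^ 2)) ^ h * ((M * Z : ℝ) ^ (h - 1) * (S ^ 2 * (M * EnZ h v))) := by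
    refine (pow_le_pow_left₀ (by positivity) c2 _).trans (c3.trans ?_)
    have n0 : 0 ≤ ∑ t : ZMod M, ‖G t‖ ^ 2 := sum_nonneg fun i _ => by positivity
    have n1 : 0 ≤ ∑ t : ZMod M, ‖F t‖ ^ 2 := sum_nonneg fun i _ => by positivity
    have n2 : 0 ≤ ∑ t : ZMod M, ‖V t‖ ^ (2 * h) := sum_nonneg fun i _ => by positivity
    apply mul_le_mul (pow_le_pow_left₀ n0 pG h) _ (by positivity) (by positivity)
    apply mul_le_mul (pow_le_pow_left₀ n1 pF _) _ (by positivity) (by positivity)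
    exact mul_le_mul_of_nonneg_left pV (by positivity)
  have c5 : (M * (x * Γ ^ 2)) ^ h * ((M * Z : ℝ) ^ (h - 1) * (S ^ 2 * (M * EnZ h v))) =
      (M : ℝ) ^ (2 * h) * ((x * Γ ^ 2) ^ h * ((Z : ℝ) ^ (h - 1) * (S ^ 2 * EnZ h v))) := by
    obtain ⟨h', rfl⟩ : ∃ h', h = h' + 1 := ⟨h - 1, by omega⟩
    rw [Nat.add_sub_cancel, mul_pow (M : ℝ), mul_pow (M : ℝ)]
    ring
  rw [mul_pow, c5] at c4
  exact le_of_mul_le_mul_left c4 (by positivity)

end Pool.Agent.W5h80.Bil
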