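import Mathlib

set_option autoImplicit false

/-! Additive energies of families with a bilinear part: general lemmas. -/

namespace Pool.Agent.W5h80.Bil
open Finset

/-- the additive character `a ↦ exp (2 π i t a / M)` -/
noncomputable def e {M : ℕ} [NeZero M] (t : ZMod M) (a : ℤ) : ℂ := ZMod.stdAddChar (t * (a : ZMod M))

section
variable {M : ℕ} [NeZero M]

lemma e_add (t : ZMod M) (a b : ℤ) : e t (a + b) = e t a * e t b := by
  unfold e
  rw [Int.cast_add, mul_add, AddChar.map_add_eq_mul]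

lemma e_zero (t : ZMod M) : e t 0 = 1 := by
  unfold e
  rw [Int.cast_zero, mul_zero, AddChar.map_zero_eq_one]

lemma e_neg (t : ZMod M) (a : ℤ) : e t (-a) = starRingEnd ℂ (e t a) := by
  unfold e
  rw [Int.cast_neg, mul_neg, AddChar.map_neg_eq_conj]

lemma e_sub (t : ZMod M) (a b : ℤ) : e t (a - b) = e t a * starRingEnd ℂ (e t b) := by
  rw [sub_eq_add_neg, e_add, e_neg]

lemma norm_e (t : ZMod M) (a : ℤ) : ‖e t a‖ = 1 := by
  unfold e
  exact AddChar.norm_apply _ _

lemma e_sum (t : ZMod M) {α : Type} (s : Finset α) (u : α → ℤ) : e t (∑ i ∈ s, u i) = ∏ i ∈ s, e t (u i) := by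
  classical
  induction s using Finset.induction_on with
  | empty => rw [sum_empty, prod_empty, e_zero]
  | insert a s ha ih => rw [sum_insert ha, prod_insert ha, e_add, ih]

lemma sum_e (a : ℤ) : ∑ t : ZMod M, e t a = if (a : ZMod M) = 0 then (M : ℂ) else 0 := by
  classical
  unfold e
  rw [AddChar.sum_mulShift _ (ZMod.isPrimitive_stdAddChar M), ZMod.card]
  push_cast
  rfl

/-- moments of exponential sums -/
lemma moment (t : ZMod M) (h : ℕ) {ι : Type} [Fintype ι] (u : ι → ℤ) :
    ((‖∑ i, e t (u i)‖ ^ (2 * h) : ℝ) : ℂ) =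
      ∑ q : (Fin h → ι) × (Fin h → ι), e t (∑ j, u (q.1 j) - ∑ j, u (q.2 j)) := by
  classical
  have h1 : (∑ i, e t (u i)) ^ h = ∑ p : Fin h → ι, e t (∑ j, u (p j)) := by
    rw [Fintype.sum_pow]
    exact sum_congr rfl fun p _ => (e_sum t _ _).symm
  rw [pow_mul, Complex.ofReal_pow, Complex.ofReal_pow, ← Complex.mul_conj', mul_pow, ← map_pow, h1, map_sum,
    sum_mul_sum, ← univ_product_univ, sum_product]
  refine sum_congr rfl fun p _ => sum_congr rfl fun q _ => ?_
  rw [e_sub]

end

/-- the number of pairs with a given difference is largest for the difference zero -/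
lemma diff_le {A G : Type} [Fintype A] [AddCommGroup G] [DecidableEq G] (S : A → G) (n : G) :
    (univ.filter (fun p : A × A => S p.1 - S p.2 = n)).card ≤
      (univ.filter (fun p : A × A => S p.1 = S p.2)).card := by
  classical
  obtain ⟨ρ, hρ⟩ : ∃ ρ : G → ℕ, ρ = fun g => (univ.filter (fun a => S a = g)).card := ⟨_, rfl⟩
  have gen : ∀ n : G, (univ.filter (fun p : A × A => S p.1 - S p.2 = n)).card =
      ∑ g ∈ univ.image S, ρ g * ρ (g + n) := by
    intro n
    rw [← univ_product_univ, card_filter, sum_product_right]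
    have e1 : ∀ q : A, ∑ p : A, (if S p - S q = n then 1 else 0) = ρ (S q + n) := by
      intro q
      rw [hρ]
      simp only
      rw [card_filter]
      refine sum_congr rfl fun p _ => ?_
      congr 1
      rw [sub_eq_iff_eq_add, add_comm n]
    rw [sum_congr rfl fun q _ => e1 q, sum_comp (fun g => ρ (g + n)) S]
    refine sum_congr rfl fun g _ => ?_
    rw [hρ, smul_eq_mul]
  have g0 := gen 0
  have gn := gen n
  have e0 : (univ.filter (fun p : A × A => S p.1 = S p.2)).card = ∑ g ∈ univ.image S, ρ g ^ 2 := by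
    have : (univ.filter (fun p : A × A => S p.1 = S p.2)) = univ.filter (fun p : A × A => S p.1 - S p.2 = 0) := by
      apply filter_congr
      intro p _
      rw [sub_eq_zero]
    rw [this, g0]
    refine sum_congr rfl fun g _ => ?_
    rw [add_zero, sq]
  rw [gn, e0]
  have h2 : ∑ g ∈ univ.image S, ρ (g + n) ^ 2 ≤ ∑ g ∈ univ.image S, ρ g ^ 2 := by
    have h3 : ∑ g ∈ univ.image S, ρ (g + n) ^ 2 = ∑ g ∈ (univ.image S).image (· + n), ρ g ^ 2 := by
      have h4 := sum_image (f := fun g => ρ g ^ 2) (s := univ.image S) (g := fun a : G => a + n)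
        (fun a _ b _ hab => add_right_cancel hab)
      exact h4.symm
    rw [h3]
    apply sum_le_sum_of_ne_zero
    intro g _ hg
    rw [mem_image]
    have h4 : ρ g ≠ 0 := fun h0 => hg (by rw [h0]; rfl)
    rw [hρ] at h4
    simp only at h4
    obtain ⟨a, ha⟩ := card_pos.1 (Nat.pos_of_ne_zero h4)
    exact ⟨a, mem_univ _, (mem_filter.1 ha).2⟩
  have h5 : ∀ g ∈ univ.image S, 2 * (ρ g * ρ (g + n)) ≤ ρ g ^ 2 + ρ (g + n) ^ 2 := by
    intro g _
    have := two_mul_le_add_sq (ρ g) (ρ (g + n))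
    linarith
  have h6 := sum_le_sum h5
  rw [← mul_sum, sum_add_distrib] at h6
  omega

/-- grouping by values -/
lemma group_le {P β : Type} [Fintype P] [DecidableEq β] (D : P → β) (box : Finset β) (hD : ∀ p, D p ∈ box)
    (E : ℝ) (hE : ∀ m, ((univ.filter (fun p => D p = m)).card : ℝ) ≤ E) (V : β → ℝ) (hV : ∀ m, 0 ≤ V m) :
    ∑ p, V (D p) ≤ E * ∑ m ∈ box, V m := by
  classical
  rw [← sum_fiberwise_of_maps_to (fun p _ => hD p), mul_sum]
  refine sum_le_sum fun m _ => ?_
  have h1 : ∑ p ∈ univ.filter (fun p => D p = m), V (D p) = ((univ.filter (fun p => D p = m)).card : ℝ) * V m := by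
    rw [sum_congr rfl (g := fun _ => V m), sum_const, nsmul_eq_mul]
    intro p hp
    rw [(mem_filter.1 hp).2]
  rw [h1]
  exact mul_le_mul_of_nonneg_right (hE m) (hV m)

/-- the power mean inequality -/
lemma pow_mean {α : Type} (s : Finset α) (f : α → ℝ) (hf : ∀ i ∈ s, 0 ≤ f i) (n : ℕ) (hn : 1 ≤ n) :
    (∑ i ∈ s, f i) ^ n ≤ (s.card : ℝ) ^ (n - 1) * ∑ i ∈ s, f i ^ n := by
  obtain ⟨m, rfl⟩ : ∃ m, n = m + 1 := ⟨n - 1, by omega⟩
  rcases s.eq_empty_or_nonempty with h0 | h0
  · subst h0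
    simp
  have h1 := pow_sum_div_card_le_sum_pow hf m
  have hc : (0 : ℝ) < s.card := by exact_mod_cast card_pos.2 h0
  rw [div_le_iff₀ (by positivity)] at h1
  rw [Nat.add_sub_cancel]
  linarith

end Pool.Agent.W5h80.Bil
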