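import Pool.Agent.W5h80.Bil.A

set_option autoImplicit false

/-! Additive energies of families with a bilinear part: the exponential sums. -/

namespace Pool.Agent.W5h80.Bil
open Finset

/-- the dot product -/
def dot {d : ℕ} (a b : Fin d → ℤ) : ℤ := ∑ k, a k * b k

lemma dot_sum_left {d : ℕ} {α : Type} (s : Finset α) (a : α → Fin d → ℤ) (b : Fin d → ℤ) :
    dot (∑ i ∈ s, a i) b = ∑ i ∈ s, dot (a i) b := by
  unfold dot
  rw [sum_comm]
  refine sum_congr rfl fun k _ => ?_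
  rw [Finset.sum_apply, sum_mul]

lemma dot_sum_right {d : ℕ} {α : Type} (s : Finset α) (a : Fin d → ℤ) (b : α → Fin d → ℤ) :
    dot a (∑ i ∈ s, b i) = ∑ i ∈ s, dot a (b i) := by
  unfold dot
  rw [sum_comm]
  refine sum_congr rfl fun k _ => ?_
  rw [Finset.sum_apply, mul_sum]

lemma dot_sub_left {d : ℕ} (a a' b : Fin d → ℤ) : dot (a - a') b = dot a b - dot a' b := by
  unfold dot
  rw [← sum_sub_distrib]
  refine sum_congr rfl fun k _ => ?_
  rw [Pi.sub_apply]; ring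

lemma dot_sub_right {d : ℕ} (a b b' : Fin d → ℤ) : dot a (b - b') = dot a b - dot a b' := by
  unfold dot
  rw [← sum_sub_distrib]
  refine sum_congr rfl fun k _ => ?_
  rw [Pi.sub_apply]; ring

/-- the additive energy of order `h` of a family of points of `ℤ ^ d` -/
noncomputable def EnV (h : ℕ) {ι : Type} [Fintype ι] {d : ℕ} (x : ι → Fin d → ℤ) : ℕ :=
  Nat.card {q : (Fin h → ι) × (Fin h → ι) // ∑ j, x (q.1 j) = ∑ j, x (q.2 j)}

/-- difference of two sums -/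
def Del {h d : ℕ} {ι : Type} (x : ι → Fin d → ℤ) (q : (Fin h → ι) × (Fin h → ι)) : Fin d → ℤ :=
  ∑ j, x (q.1 j) - ∑ j, x (q.2 j)

lemma fiber_le {h d : ℕ} {ι : Type} [Fintype ι] (x : ι → Fin d → ℤ) (m : Fin d → ℤ) :
    ((univ.filter (fun q : (Fin h → ι) × (Fin h → ι) => Del x q = m)).card : ℝ) ≤ EnV h x := by
  classical
  have h1 := diff_le (fun p : Fin h → ι => ∑ j, x (p j)) m
  have h2 : EnV h x = (univ.filter (fun p : (Fin h → ι) × (Fin h → ι) => ∑ j, x (p.1 j) = ∑ j, x (p.2 j))).card := by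
    unfold EnV
    rw [Nat.card_eq_fintype_card, Fintype.card_subtype]
  rw [h2]
  exact_mod_cast h1

lemma Del_box {h d : ℕ} {ι : Type} (x : ι → Fin d → ℤ) (T : ℕ) (hx : ∀ i k, |x i k| ≤ T)
    (q : (Fin h → ι) × (Fin h → ι)) (k : Fin d) : |Del x q k| ≤ 2 * h * T := by
  have key : ∀ p : Fin h → ι, |∑ j, x (p j) k| ≤ h * T := by
    intro p
    calc |∑ j, x (p j) k| ≤ ∑ j, |x (p j) k| := abs_sum_le_sum_abs _ _
      _ ≤ ∑ _j : Fin h, (T : ℤ) := sum_le_sum fun j _ => hx _ _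
      _ = h * T := by rw [sum_const, card_univ, Fintype.card_fin, nsmul_eq_mul]
  unfold Del
  rw [Pi.sub_apply, Finset.sum_apply, Finset.sum_apply]
  calc |∑ j, x (q.1 j) k - ∑ j, x (q.2 j) k| ≤ |∑ j, x (q.1 j) k| + |∑ j, x (q.2 j) k| := abs_sub _ _
    _ ≤ h * T + h * T := add_le_add (key _) (key _)
    _ = 2 * h * T := by ring

section
variable {M : ℕ} [NeZero M]

/-- the weight of a coordinate difference -/
noncomputable def wt (K : ℕ) (κ : ℤ) (t : ZMod M) (m : ℤ) : ℝ := ‖∑ a : Fin K, e t (κ * m * (a : ℕ))‖ ^ 2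

lemma wt_nonneg (K : ℕ) (κ : ℤ) (t : ZMod M) (m : ℤ) : 0 ≤ wt K κ t m := by
  unfold wt
  positivity

lemma wt_eq (K : ℕ) (κ : ℤ) (t : ZMod M) (m : ℤ) :
    ((wt K κ t m : ℝ) : ℂ) = ∑ c : Fin K × Fin K, e t (κ * (m * (((c.1 : ℕ) : ℤ) - ((c.2 : ℕ) : ℤ)))) := by
  unfold wt
  rw [Complex.ofReal_pow, ← Complex.mul_conj', map_sum, sum_mul_sum, ← univ_product_univ, sum_product]
  refine sum_congr rfl fun a _ => sum_congr rfl fun b _ => ?_
  rw [← e_sub]
  congr 1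
  ring

/-- the difference vector -/
def dl {d K : ℕ} (c : Fin d → Fin K × Fin K) : Fin d → ℤ := fun k => (((c k).1 : ℕ) : ℤ) - (((c k).2 : ℕ) : ℤ)

lemma prod_wt {d : ℕ} (K : ℕ) (κ : ℤ) (t : ZMod M) (m : Fin d → ℤ) :
    ((∏ k, wt K κ t (m k) : ℝ) : ℂ) = ∑ c : Fin d → Fin K × Fin K, e t (κ * dot m (dl c)) := by
  classical
  rw [Complex.ofReal_prod]
  simp_rw [wt_eq]
  rw [prod_univ_sum, Fintype.piFinset_univ]
  refine sum_congr rfl fun c _ => ?_
  rw [← e_sum, ← mul_sum]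
  rfl

/-- the number of representations of a coordinate difference -/
lemma rep_count (K R : ℕ) (hK : 2 * R ≤ K) (n : ℤ) (hn : |n| ≤ R) :
    (K : ℝ) / 2 ≤ ((univ.filter (fun c : Fin K × Fin K => ((c.1 : ℕ) : ℤ) - ((c.2 : ℕ) : ℤ) = n)).card : ℝ) := by
  classical
  have h0 : n.natAbs ≤ R := by
    have : ((n.natAbs : ℕ) : ℤ) ≤ R := by rw [Int.natCast_natAbs]; exact hn
    exact_mod_cast this
  have h1 : K - n.natAbs ≤ (univ.filter (fun c : Fin K × Fin K => ((c.1 : ℕ) : ℤ) - ((c.2 : ℕ) : ℤ) = n)).card := by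
    have h2 : (univ : Finset (Fin (K - n.natAbs))).card = K - n.natAbs := by rw [card_univ, Fintype.card_fin]
    rw [← h2]
    refine card_le_card_of_injOn (fun r : Fin (K - n.natAbs) =>
      ((⟨r + n.toNat, by have := r.2; omega⟩, ⟨r + (-n).toNat, by have := r.2; omega⟩) : Fin K × Fin K)) ?_ ?_
    · intro r _
      rw [mem_coe, mem_filter]
      refine ⟨mem_univ _, ?_⟩
      simp only
      push_cast
      omega
    · intro r _ r' _ hrr
      simp only [Prod.mk.injEq, Fin.mk.injEq] at hrr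
      apply Fin.ext
      omega
  have h3 : (K : ℝ) / 2 ≤ ((K - n.natAbs : ℕ) : ℝ) := by
    rw [Nat.cast_sub (by omega)]
    have h4 : (n.natAbs : ℝ) ≤ R := by exact_mod_cast h0
    have h5 : (2 : ℝ) * R ≤ K := by exact_mod_cast hK
    linarith
  exact h3.trans (by exact_mod_cast h1)

/-- sums over a box are bounded by sums over differences -/
lemma box_le {d : ℕ} (K R : ℕ) (hK : 2 * R ≤ K) (V : (Fin d → ℤ) → ℝ) (hV : ∀ m, 0 ≤ V m) :
    ((K : ℝ) / 2) ^ d * ∑ n ∈ Fintype.piFinset (fun _ : Fin d => Icc (-(R : ℤ)) R), V n ≤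
      ∑ c : Fin d → Fin K × Fin K, V (dl c) := by
  classical
  obtain ⟨box, hbox⟩ : ∃ box, box = Fintype.piFinset (fun _ : Fin d => Icc (-(R : ℤ)) R) := ⟨_, rfl⟩
  rw [← hbox]
  have h1 : ∑ c ∈ univ.filter (fun c : Fin d → Fin K × Fin K => dl c ∈ box), V (dl c) ≤
      ∑ c : Fin d → Fin K × Fin K, V (dl c) :=
    sum_le_sum_of_subset_of_nonneg (filter_subset _ _) (fun c _ _ => hV _)
  refine le_trans ?_ h1
  rw [← sum_fiberwise_of_maps_to (g := fun c => dl c) (t := box) (fun c hc => (mem_filter.1 hc).2), mul_sum]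
  refine sum_le_sum fun n hn => ?_
  have h2 : ∑ c ∈ (univ.filter (fun c : Fin d → Fin K × Fin K => dl c ∈ box)).filter (fun c => dl c = n), V (dl c) =
      ((univ.filter (fun c : Fin d → Fin K × Fin K => dl c = n)).card : ℝ) * V n := by
    have e1 : (univ.filter (fun c : Fin d → Fin K × Fin K => dl c ∈ box)).filter (fun c => dl c = n) =
        univ.filter (fun c : Fin d → Fin K × Fin K => dl c = n) := by
      ext c
      rw [mem_filter, mem_filter, mem_filter]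
      constructor
      · rintro ⟨h2, h3⟩
        exact ⟨mem_univ _, h3⟩
      · rintro ⟨h2, h3⟩
        exact ⟨⟨mem_univ _, h3 ▸ hn⟩, h3⟩
    rw [e1, sum_congr rfl (g := fun _ => V n), sum_const, nsmul_eq_mul]
    intro c hc
    rw [(mem_filter.1 hc).2]
  rw [h2]
  apply mul_le_mul_of_nonneg_right _ (hV n)
  have e2 : univ.filter (fun c : Fin d → Fin K × Fin K => dl c = n) =
      Fintype.piFinset (fun k => univ.filter (fun c : Fin K × Fin K => ((c.1 : ℕ) : ℤ) - ((c.2 : ℕ) : ℤ) = n k)) := by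
    ext c
    rw [mem_filter, Fintype.mem_piFinset]
    constructor
    · rintro ⟨_, h3⟩ k
      rw [mem_filter]
      exact ⟨mem_univ _, congrFun h3 k⟩
    · intro h3
      refine ⟨mem_univ _, funext fun k => ?_⟩
      exact (mem_filter.1 (h3 k)).2
  rw [e2, Fintype.card_piFinset]
  push_cast
  calc ((K : ℝ) / 2) ^ d = ∏ _k : Fin d, ((K : ℝ) / 2) := by rw [prod_const, card_univ, Fintype.card_fin]
    _ ≤ _ := by
      apply prod_le_prod
      · intro k _
        positivity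
      · intro k _
        rw [hbox, Fintype.mem_piFinset] at hn
        exact rep_count K R hK (n k) (abs_le.2 (mem_Icc.1 (hn k)))

/-- the sum of the weights -/
noncomputable def G (R K : ℕ) (κ : ℤ) (t : ZMod M) : ℝ := ∑ m ∈ Icc (-(R : ℤ)) R, wt K κ t m

/-- the main inequality -/
theorem main_ineq {d h : ℕ} (hh : 1 ≤ h) {ι lam : Type} [Fintype ι] [Fintype lam] (x : ι → Fin d → ℤ)
    (y : lam → Fin d → ℤ) (f : ι → ℤ) (g : lam → ℤ) (κ : ℤ) (X Y K : ℕ) (hx : ∀ i k, |x i k| ≤ X)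
    (hy : ∀ j k, |y j k| ≤ Y) (hK : 2 * (2 * h * Y) ≤ K) (t : ZMod M) :
    ((K : ℝ) / 2) ^ d * ‖∑ p : ι × lam, e t (f p.1 + g p.2 + κ * dot (x p.1) (y p.2))‖ ^ (2 * h * (2 * h)) ≤
      (Fintype.card ι : ℝ) ^ (2 * h * (2 * h - 1)) * (Fintype.card lam : ℝ) ^ (2 * h * (2 * h - 1)) *
        (EnV h x * EnV h y) * (G (2 * h * X) K κ t) ^ d := by
  classical
  obtain ⟨I, hI⟩ : ∃ I : ℝ, I = Fintype.card ι := ⟨_, rfl⟩
  obtain ⟨J, hJ⟩ : ∃ J : ℝ, J = Fintype.card lam := ⟨_, rfl⟩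
  rw [← hI, ← hJ]
  have hI0 : 0 ≤ I := by rw [hI]; positivity
  have hJ0 : 0 ≤ J := by rw [hJ]; positivity
  have h2h : 1 ≤ 2 * h := by omega
  -- step 1
  obtain ⟨Fi, hFi⟩ : ∃ Fi : ι → ℝ, Fi = fun i => ‖∑ j, e t (g j + κ * dot (x i) (y j))‖ := ⟨_, rfl⟩
  have s1 : ‖∑ p : ι × lam, e t (f p.1 + g p.2 + κ * dot (x p.1) (y p.2))‖ ≤ ∑ i, Fi i := by
    rw [← univ_product_univ, sum_product]
    refine (norm_sum_le _ _).trans (le_of_eq ?_)
    refine sum_congr rfl fun i _ => ?_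
    rw [hFi]
    simp only
    have : ∀ j, e t (f i + g j + κ * dot (x i) (y j)) = e t (f i) * e t (g j + κ * dot (x i) (y j)) := by
      intro j
      rw [add_assoc, e_add]
    rw [sum_congr rfl fun j _ => this j, ← mul_sum, norm_mul, norm_e, one_mul]
  have hF0 : ∀ i, 0 ≤ Fi i := by
    intro i
    rw [hFi]
    positivity
  -- step 2
  have s2 : (∑ i, Fi i) ^ (2 * h) ≤ I ^ (2 * h - 1) * ∑ i, Fi i ^ (2 * h) := by
    have := pow_mean univ Fi (fun i _ => hF0 i) (2 * h) h2h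
    rwa [card_univ, ← hI] at this
  -- step 3
  obtain ⟨Φ, hΦ⟩ : ∃ Φ : (Fin d → ℤ) → ℝ, Φ = fun n => ‖∑ i, e t (κ * dot (x i) n)‖ := ⟨_, rfl⟩
  have hΦ0 : ∀ n, 0 ≤ Φ n := by
    intro n
    rw [hΦ]
    positivity
  have s3 : ∑ i, Fi i ^ (2 * h) ≤ ∑ q : (Fin h → lam) × (Fin h → lam), Φ (Del y q) := by
    have c1 : ((∑ i, Fi i ^ (2 * h) : ℝ) : ℂ) = ∑ q : (Fin h → lam) × (Fin h → lam),
        e t (∑ j, g (q.1 j) - ∑ j, g (q.2 j)) * ∑ i, e t (κ * dot (x i) (Del y q)) := by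
      rw [Complex.ofReal_sum]
      have c2 : ∀ i, ((Fi i ^ (2 * h) : ℝ) : ℂ) = ∑ q : (Fin h → lam) × (Fin h → lam),
          e t (∑ j, g (q.1 j) - ∑ j, g (q.2 j)) * e t (κ * dot (x i) (Del y q)) := by
        intro i
        rw [hFi]
        simp only
        rw [moment]
        refine sum_congr rfl fun q _ => ?_
        rw [← e_add]
        congr 1
        unfold Del
        rw [dot_sub_right, dot_sum_right, dot_sum_right, mul_sub, mul_sum, mul_sum, sum_add_distrib, sum_add_distrib]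
        ring
      rw [sum_congr rfl fun i _ => c2 i, sum_comm]
      refine sum_congr rfl fun q _ => ?_
      rw [mul_sum]
    have c3 : (0 : ℝ) ≤ ∑ i, Fi i ^ (2 * h) := sum_nonneg fun i _ => pow_nonneg (hF0 i) _
    have c4 : ∑ i, Fi i ^ (2 * h) = ‖((∑ i, Fi i ^ (2 * h) : ℝ) : ℂ)‖ := by
      rw [Complex.norm_real, Real.norm_of_nonneg c3]
    rw [c4, c1]
    refine (norm_sum_le _ _).trans (le_of_eq ?_)
    refine sum_congr rfl fun q _ => ?_
    rw [norm_mul, norm_e, one_mul, hΦ]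
  -- step 4
  have s4 : (∑ q : (Fin h → lam) × (Fin h → lam), Φ (Del y q)) ^ (2 * h) ≤
      (J ^ (2 * h)) ^ (2 * h - 1) * ∑ q : (Fin h → lam) × (Fin h → lam), Φ (Del y q) ^ (2 * h) := by
    have := pow_mean univ (fun q : (Fin h → lam) × (Fin h → lam) => Φ (Del y q)) (fun i _ => hΦ0 _) (2 * h) h2h
    rw [card_univ, Fintype.card_prod, Fintype.card_fun, Fintype.card_fin] at this
    have e1 : (((Fintype.card lam ^ h * Fintype.card lam ^ h : ℕ)) : ℝ) = J ^ (2 * h) := by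
      rw [hJ]; push_cast; ring
    rwa [e1] at this
  -- step 5
  have s5 : ∑ q : (Fin h → lam) × (Fin h → lam), Φ (Del y q) ^ (2 * h) ≤
      EnV h y * ∑ n ∈ Fintype.piFinset (fun _ : Fin d => Icc (-((2 * h * Y : ℕ) : ℤ)) (2 * h * Y : ℕ)), Φ n ^ (2 * h) := by
    refine group_le (Del y) _ ?_ _ (fun m => fiber_le y m) (fun n => Φ n ^ (2 * h)) (fun m => pow_nonneg (hΦ0 m) _)
    intro q
    rw [Fintype.mem_piFinset]
    intro k
    rw [mem_Icc]
    have := Del_box y Y hy q k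
    push_cast
    exact abs_le.1 this
  have s5' := box_le (d := d) K (2 * h * Y) hK (fun n => Φ n ^ (2 * h)) (fun m => pow_nonneg (hΦ0 m) _)
  -- step 6
  have s6 : ∑ c : Fin d → Fin K × Fin K, Φ (dl c) ^ (2 * h) =
      ∑ q : (Fin h → ι) × (Fin h → ι), ∏ k, wt K κ t (Del x q k) := by
    apply Complex.ofReal_injective
    rw [Complex.ofReal_sum, Complex.ofReal_sum]
    simp_rw [prod_wt]
    rw [sum_comm]
    refine sum_congr rfl fun c _ => ?_
    rw [hΦ]
    simp only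
    rw [moment]
    refine sum_congr rfl fun q _ => ?_
    congr 1
    unfold Del
    rw [dot_sub_left, dot_sum_left, dot_sum_left, mul_sub, mul_sum, mul_sum]
  -- step 7
  have s7 : ∑ q : (Fin h → ι) × (Fin h → ι), ∏ k, wt K κ t (Del x q k) ≤ EnV h x * (G (2 * h * X) K κ t) ^ d := by
    have := group_le (Del (h := h) x) (Fintype.piFinset (fun _ : Fin d => Icc (-((2 * h * X : ℕ) : ℤ)) (2 * h * X : ℕ))) (by
      intro q
      rw [Fintype.mem_piFinset]
      intro k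
      rw [mem_Icc]
      have := Del_box x X hx q k
      push_cast
      exact abs_le.1 this) (EnV h x) (fun m => fiber_le x m) (fun m => ∏ k, wt K κ t (m k))
      (fun m => prod_nonneg fun k _ => wt_nonneg _ _ _ _)
    refine this.trans (le_of_eq ?_)
    congr 1
    unfold G
    rw [← Fin.prod_const, prod_univ_sum]
  -- combination
  have hKd : 0 ≤ ((K : ℝ) / 2) ^ d := by positivity
  have t1 : ‖∑ p : ι × lam, e t (f p.1 + g p.2 + κ * dot (x p.1) (y p.2))‖ ^ (2 * h) ≤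
      I ^ (2 * h - 1) * ∑ q : (Fin h → lam) × (Fin h → lam), Φ (Del y q) :=
    (pow_le_pow_left₀ (norm_nonneg _) s1 _).trans (s2.trans (mul_le_mul_of_nonneg_left s3 (by positivity)))
  have t2 : ‖∑ p : ι × lam, e t (f p.1 + g p.2 + κ * dot (x p.1) (y p.2))‖ ^ (2 * h * (2 * h)) ≤
      I ^ (2 * h * (2 * h - 1)) * J ^ (2 * h * (2 * h - 1)) *
        ∑ q : (Fin h → lam) × (Fin h → lam), Φ (Del y q) ^ (2 * h) := by
    rw [pow_mul]
    calc (‖∑ p : ι × lam, e t (f p.1 + g p.2 + κ * dot (x p.1) (y p.2))‖ ^ (2 * h)) ^ (2 * h)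
        ≤ (I ^ (2 * h - 1) * ∑ q : (Fin h → lam) × (Fin h → lam), Φ (Del y q)) ^ (2 * h) :=
          pow_le_pow_left₀ (by positivity) t1 _
      _ = I ^ (2 * h * (2 * h - 1)) * (∑ q : (Fin h → lam) × (Fin h → lam), Φ (Del y q)) ^ (2 * h) := by
          rw [mul_pow, ← pow_mul, mul_comm (2 * h - 1)]
      _ ≤ I ^ (2 * h * (2 * h - 1)) * ((J ^ (2 * h)) ^ (2 * h - 1) *
          ∑ q : (Fin h → lam) × (Fin h → lam), Φ (Del y q) ^ (2 * h)) :=
          mul_le_mul_of_nonneg_left s4 (by positivity)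
      _ = _ := by rw [← pow_mul J]; ring
  have hE0 : (0 : ℝ) ≤ EnV h y := Nat.cast_nonneg _
  calc ((K : ℝ) / 2) ^ d * ‖∑ p : ι × lam, e t (f p.1 + g p.2 + κ * dot (x p.1) (y p.2))‖ ^ (2 * h * (2 * h))
      ≤ ((K : ℝ) / 2) ^ d * (I ^ (2 * h * (2 * h - 1)) * J ^ (2 * h * (2 * h - 1)) *
        (EnV h y * ∑ n ∈ Fintype.piFinset (fun _ : Fin d => Icc (-((2 * h * Y : ℕ) : ℤ)) (2 * h * Y : ℕ)), Φ n ^ (2 * h))) :=
        mul_le_mul_of_nonneg_left (t2.trans (mul_le_mul_of_nonneg_left s5 (by positivity))) hKd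
    _ = I ^ (2 * h * (2 * h - 1)) * J ^ (2 * h * (2 * h - 1)) * EnV h y * (((K : ℝ) / 2) ^ d *
        ∑ n ∈ Fintype.piFinset (fun _ : Fin d => Icc (-((2 * h * Y : ℕ) : ℤ)) (2 * h * Y : ℕ)), Φ n ^ (2 * h)) := by ring
    _ ≤ I ^ (2 * h * (2 * h - 1)) * J ^ (2 * h * (2 * h - 1)) * EnV h y * (EnV h x * (G (2 * h * X) K κ t) ^ d) := by
        apply mul_le_mul_of_nonneg_left _ (by positivity)
        exact s5'.trans (s6.le.trans s7)
    _ = _ := by ring

end

end Pool.Agent.W5h80.Bil
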