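import Pool.Agent.W5h80.Bil.B

set_option autoImplicit false

/-! Additive energies of families with a bilinear part: counting. -/

namespace Pool.Agent.W5h80.Bil
open Finset

/-- pairs with product at most `K` -/
def D (K : ℕ) : Finset (ℕ × ℕ) := (Icc 1 K ×ˢ Icc 1 K).filter (fun p => p.1 * p.2 ≤ K)

lemma card_D (K : ℕ) : ((D K).card : ℝ) ≤ K * (1 + Real.log K) := by
  classical
  unfold D
  rw [card_filter, sum_product]
  have h1 : ∀ a ∈ Icc 1 K, ((∑ b ∈ Icc 1 K, (if a * b ≤ K then 1 else 0) : ℕ) : ℝ) ≤ K * (a : ℝ)⁻¹ := by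
    intro a ha
    rw [mem_Icc] at ha
    rw [← card_filter]
    have h2 : (Icc 1 K).filter (fun b => a * b ≤ K) ⊆ Icc 1 (K / a) := by
      intro b hb
      rw [mem_filter, mem_Icc] at hb
      rw [mem_Icc]
      refine ⟨hb.1.1, ?_⟩
      rw [Nat.le_div_iff_mul_le (by omega), mul_comm]
      exact hb.2
    have h3 := card_le_card h2
    rw [Nat.card_Icc, Nat.add_sub_cancel] at h3
    have h4 : ((K / a : ℕ) : ℝ) ≤ (K : ℝ) / a := Nat.cast_div_le
    rw [← div_eq_mul_inv]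
    exact le_trans (by exact_mod_cast h3) h4
  push_cast
  push_cast at h1
  refine (sum_le_sum h1).trans ?_
  rw [← mul_sum]
  apply mul_le_mul_of_nonneg_left _ (Nat.cast_nonneg _)
  have h5 := harmonic_le_one_add_log K
  refine le_trans (le_of_eq ?_) h5
  rw [harmonic_eq_sum_Icc]
  push_cast
  rfl

/-- the index set -/
noncomputable def U (R K : ℕ) : Finset (ℤ × (Fin K × Fin K)) :=
  ((Icc (-(R : ℤ)) R).filter (fun m => m ≠ 0)) ×ˢ (univ.filter (fun c : Fin K × Fin K => c.1 ≠ c.2))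

/-- the product -/
def vl {K : ℕ} (u : ℤ × (Fin K × Fin K)) : ℤ := u.1 * (((u.2.1 : ℕ) : ℤ) - ((u.2.2 : ℕ) : ℤ))

/-- signs -/
def sg : Finset ℤ := {1, -1}

lemma param (a b c e : ℕ) (ha : 0 < a) (hc : 0 < c) (h : a * b = c * e) :
    ∃ g a' z c' : ℕ, a = g * a' ∧ c = g * c' ∧ b = z * c' ∧ e = z * a' := by
  obtain ⟨g, a', c', hg, hcop, rfl, rfl⟩ := Nat.exists_coprime' (Nat.gcd_pos_of_pos_left c ha)
  have h1 : a' * b = c' * e := by
    have h2 : g * (a' * b) = g * (c' * e) := by linarith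
    exact Nat.eq_of_mul_eq_mul_left hg h2
  have h3 : c' ∣ b := by
    have : c' ∣ a' * b := ⟨e, h1⟩
    exact hcop.symm.dvd_of_dvd_mul_left this
  obtain ⟨z, rfl⟩ := h3
  have hc' : 0 < c' := Nat.pos_of_mul_pos_right hc
  refine ⟨g, a', z, c', by ring, by ring, by ring, ?_⟩
  have h4 : c' * e = c' * (z * a') := by rw [← h1]; ring
  exact Nat.eq_of_mul_eq_mul_left hc' h4

lemma card_quad (R K : ℕ) :
    ((U R K ×ˢ U R K).filter (fun p => vl p.1 = vl p.2)).card ≤ 16 * (D R).card * (D K).card * (K * K) := by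
  classical
  obtain ⟨T, hT⟩ : ∃ T : Finset ((ℤ × ℤ × ℤ × ℤ) × (ℕ × ℕ) × (ℕ × ℕ) × (Fin K × Fin K)),
    T = (sg ×ˢ sg ×ˢ sg ×ˢ sg) ×ˢ (D R) ×ˢ (D K) ×ˢ univ := ⟨_, rfl⟩
  have hTc : T.card = 16 * (D R).card * (D K).card * (K * K) := by
    rw [hT]
    simp only [card_product, card_univ, Fintype.card_prod, Fintype.card_fin]
    have : sg.card = 2 := by unfold sg; decide
    rw [this]
    ring
  obtain ⟨F, hF⟩ : ∃ F : (ℤ × ℤ × ℤ × ℤ) × (ℕ × ℕ) × (ℕ × ℕ) × (Fin K × Fin K) → (ℤ × ℤ × ℤ) × (ℤ × ℤ × ℤ),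
    F = fun (w : (ℤ × ℤ × ℤ × ℤ) × (ℕ × ℕ) × (ℕ × ℕ) × (Fin K × Fin K)) =>
      ((w.1.1 * ((w.2.1.1 * w.2.1.2 : ℕ) : ℤ),
        ((w.2.2.2.1 : ℕ) : ℤ) + w.1.2.1 * ((w.2.2.1.1 * w.2.2.1.2 : ℕ) : ℤ), ((w.2.2.2.1 : ℕ) : ℤ)),
      (w.1.2.2.1 * ((w.2.1.1 * w.2.2.1.2 : ℕ) : ℤ),
        ((w.2.2.2.2 : ℕ) : ℤ) + w.1.2.2.2 * ((w.2.2.1.1 * w.2.1.2 : ℕ) : ℤ), ((w.2.2.2.2 : ℕ) : ℤ))) :=
    ⟨_, rfl⟩
  rw [← hTc]
  refine le_trans ?_ (card_image_le (f := F))
  refine card_le_card_of_injOn (fun p => ((p.1.1, ((p.1.2.1 : ℕ) : ℤ), ((p.1.2.2 : ℕ) : ℤ)),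
    (p.2.1, ((p.2.2.1 : ℕ) : ℤ), ((p.2.2.2 : ℕ) : ℤ)))) ?_ ?_
  · rintro ⟨⟨m, a, b⟩, ⟨m', a', b'⟩⟩ hp
    rw [mem_coe, mem_filter, mem_product] at hp
    unfold U at hp
    simp only [mem_product, mem_filter, mem_Icc, mem_univ, true_and] at hp
    obtain ⟨⟨⟨⟨m1, m2⟩, m3⟩, hab⟩, ⟨⟨m1', m2'⟩, m3'⟩, hab'⟩ := hp.1
    have hv := hp.2
    unfold vl at hv
    simp only at hv
    simp only [coe_image, Set.mem_image, mem_coe]
    obtain ⟨n, hn⟩ : ∃ n : ℤ, n = ((a : ℕ) : ℤ) - ((b : ℕ) : ℤ) := ⟨_, rfl⟩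
    obtain ⟨n', hn'⟩ : ∃ n' : ℤ, n' = ((a' : ℕ) : ℤ) - ((b' : ℕ) : ℤ) := ⟨_, rfl⟩
    rw [← hn, ← hn'] at hv
    have hn0 : n ≠ 0 := by
      intro h0
      apply hab
      apply Fin.ext
      omega
    have hn0' : n' ≠ 0 := by
      intro h0
      apply hab'
      apply Fin.ext
      omega
    have hnK : n.natAbs ≤ K := by
      have := a.2
      have := b.2
      omega
    have hnK' : n'.natAbs ≤ K := by
      have := a'.2
      have := b'.2
      omega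
    have habs : m.natAbs * n.natAbs = m'.natAbs * n'.natAbs := by
      rw [← Int.natAbs_mul, ← Int.natAbs_mul, hv]
    obtain ⟨g, α, z, γ, e1, e2, e3, e4⟩ := param m.natAbs n.natAbs m'.natAbs n'.natAbs
      (Int.natAbs_pos.2 m3) (Int.natAbs_pos.2 m3') habs
    have hsg : ∀ w : ℤ, w ≠ 0 → w.sign ∈ sg := by
      intro w hw
      unfold sg
      rw [mem_insert, mem_singleton]
      rcases lt_or_gt_of_ne hw with h | h
      · right
        exact Int.sign_eq_neg_one_of_neg h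
      · left
        exact Int.sign_eq_one_of_pos h
    have pg : 0 < g * α := by rw [← e1]; exact Int.natAbs_pos.2 m3
    have pg2 : 0 < g * γ := by rw [← e2]; exact Int.natAbs_pos.2 m3'
    have pz : 0 < z * γ := by rw [← e3]; exact Int.natAbs_pos.2 hn0
    have pg0 : 0 < g := Nat.pos_of_mul_pos_right pg
    have pa0 : 0 < α := Nat.pos_of_mul_pos_left pg
    have pc0 : 0 < γ := Nat.pos_of_mul_pos_left pg2
    have pz0 : 0 < z := Nat.pos_of_mul_pos_right pz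
    refine ⟨((m.sign, n.sign, m'.sign, n'.sign), (g, α), (z, γ), (b, b')), ?_, ?_⟩
    · rw [hT]
      simp only [mem_product, mem_univ, and_true]
      refine ⟨⟨hsg _ m3, hsg _ hn0, hsg _ m3', hsg _ hn0'⟩, ?_, ?_⟩
      · unfold D
        rw [mem_filter, mem_product, mem_Icc, mem_Icc]
        have h5 : g * α ≤ R := by rw [← e1]; omega
        have h6 : g ≤ g * α := Nat.le_mul_of_pos_right _ pa0
        have h7 : α ≤ g * α := Nat.le_mul_of_pos_left _ pg0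
        exact ⟨⟨⟨pg0, by simp only; omega⟩, ⟨pa0, by simp only; omega⟩⟩, h5⟩
      · unfold D
        rw [mem_filter, mem_product, mem_Icc, mem_Icc]
        have h5 : z * γ ≤ K := by rw [← e3]; omega
        have h6 : z ≤ z * γ := Nat.le_mul_of_pos_right _ pc0
        have h7 : γ ≤ z * γ := Nat.le_mul_of_pos_left _ pz0
        exact ⟨⟨⟨pz0, by simp only; omega⟩, ⟨pc0, by simp only; omega⟩⟩, h5⟩
    · rw [hF]
      simp only
      rw [← e1, ← e2, ← e3, ← e4, Int.sign_mul_natAbs, Int.sign_mul_natAbs, Int.sign_mul_natAbs, Int.sign_mul_natAbs,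
        hn, hn']
      simp
  · rintro ⟨⟨m, a, b⟩, ⟨m', a', b'⟩⟩ _ ⟨⟨n, c, e⟩, ⟨n', c', e'⟩⟩ _ hpq
    simp only [Prod.mk.injEq, Nat.cast_inj] at hpq
    obtain ⟨⟨h1, h2, h3⟩, h4, h5, h6⟩ := hpq
    rw [h1, h4, Fin.ext h2, Fin.ext h3, Fin.ext h5, Fin.ext h6]

section
variable {M : ℕ} [NeZero M]

lemma second_moment {α : Type} (S : Finset α) (w : α → ℤ) (hw : ∀ a ∈ S, ∀ b ∈ S, |w a - w b| < M) :
    ∑ t : ZMod M, ‖∑ a ∈ S, e t (w a)‖ ^ 2 = M * (((S ×ˢ S).filter (fun p => w p.1 = w p.2)).card : ℝ) := by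
  classical
  apply Complex.ofReal_injective
  rw [Complex.ofReal_sum]
  have h1 : ∀ t : ZMod M, ((‖∑ a ∈ S, e t (w a)‖ ^ 2 : ℝ) : ℂ) = ∑ p ∈ S ×ˢ S, e t (w p.1 - w p.2) := by
    intro t
    rw [Complex.ofReal_pow, ← Complex.mul_conj', map_sum, sum_mul_sum, sum_product]
    refine sum_congr rfl fun a _ => sum_congr rfl fun b _ => ?_
    rw [e_sub]
  rw [sum_congr rfl fun t _ => h1 t, sum_comm]
  have h2 : ∀ p ∈ S ×ˢ S, ∑ t : ZMod M, e t (w p.1 - w p.2) = if w p.1 = w p.2 then (M : ℂ) else 0 := by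
    intro p hp
    rw [mem_product] at hp
    rw [sum_e]
    congr 1
    rw [ZMod.intCast_zmod_eq_zero_iff_dvd]
    apply propext
    constructor
    · intro h3
      have := Int.eq_zero_of_abs_lt_dvd h3 (hw _ hp.1 _ hp.2)
      omega
    · intro h3
      rw [h3, sub_self]
      exact dvd_zero _
  rw [sum_congr rfl h2, ← sum_filter, sum_const, nsmul_eq_mul]
  push_cast
  ring

lemma wt_le (K : ℕ) (κ : ℤ) (t : ZMod M) (m : ℤ) : wt K κ t m ≤ K ^ 2 := by
  unfold wt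
  apply pow_le_pow_left₀ (norm_nonneg _)
  refine (norm_sum_le _ _).trans ?_
  rw [sum_congr rfl fun a _ => norm_e t _, sum_const, card_univ, Fintype.card_fin, nsmul_eq_mul, mul_one]

lemma G_nonneg (R K : ℕ) (κ : ℤ) (t : ZMod M) : 0 ≤ G R K κ t :=
  sum_nonneg fun m _ => wt_nonneg _ _ _ _

lemma G_le (R K : ℕ) (κ : ℤ) (t : ZMod M) : G R K κ t ≤ (2 * R + 1) * K ^ 2 := by
  unfold G
  refine (sum_le_sum fun m _ => wt_le K κ t m).trans (le_of_eq ?_)
  rw [sum_const, nsmul_eq_mul, Int.card_Icc]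
  congr 1
  have : ((R : ℤ) + 1 - -(R : ℤ)).toNat = 2 * R + 1 := by omega
  rw [this]
  push_cast
  ring

/-- the off-diagonal part -/
noncomputable def G2 (R K : ℕ) (κ : ℤ) (t : ZMod M) : ℂ := ∑ u ∈ U R K, e t (κ * vl u)

lemma G_eq (R K : ℕ) (κ : ℤ) (t : ZMod M) : G R K κ t ≤ K ^ 2 + 2 * R * K + ‖G2 R K κ t‖ := by
  classical
  have h0 : (0 : ℤ) ∈ Icc (-(R : ℤ)) R := by
    rw [mem_Icc]
    constructor <;> simp
  have h1 : G R K κ t = wt K κ t 0 + ∑ m ∈ (Icc (-(R : ℤ)) R).filter (fun m => m ≠ 0), wt K κ t m := by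
    unfold G
    rw [← add_sum_erase _ _ h0]
    congr 1
    apply sum_congr _ (fun _ _ => rfl)
    ext m
    rw [mem_erase, mem_filter, and_comm]
  have h2 : ((∑ m ∈ (Icc (-(R : ℤ)) R).filter (fun m => m ≠ 0), wt K κ t m : ℝ) : ℂ) =
      ((Icc (-(R : ℤ)) R).filter (fun m => m ≠ 0)).card * (K : ℂ) + G2 R K κ t := by
    rw [Complex.ofReal_sum]
    unfold G2 U
    rw [sum_product, ← nsmul_eq_mul, ← sum_const, ← sum_add_distrib]
    refine sum_congr rfl fun m _ => ?_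
    rw [wt_eq, ← sum_filter_add_sum_filter_not univ (fun c : Fin K × Fin K => c.1 = c.2)]
    congr 1
    rw [sum_congr rfl (g := fun _ => (1 : ℂ))]
    · rw [sum_const, nsmul_eq_mul, mul_one]
      congr 1
      have h3 : univ.filter (fun c : Fin K × Fin K => c.1 = c.2) = (univ : Finset (Fin K)).image (fun a => (a, a)) := by
        ext ⟨a, b⟩
        simp only [mem_filter, mem_univ, true_and, mem_image, Prod.mk.injEq, exists_eq_left]
      rw [h3, card_image_of_injective _ (fun a b hab => (Prod.mk.inj hab).1), card_univ, Fintype.card_fin]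
    · intro c hc
      rw [(mem_filter.1 hc).2, sub_self, mul_zero, mul_zero, e_zero]
  have h3 : (((Icc (-(R : ℤ)) R).filter (fun m => m ≠ 0)).card : ℝ) = 2 * R := by
    have h4 : (Icc (-(R : ℤ)) R).filter (fun m => m ≠ 0) = (Icc (-(R : ℤ)) R).erase 0 := by
      ext m
      rw [mem_erase, mem_filter, and_comm]
    rw [h4, card_erase_of_mem h0, Int.card_Icc]
    have : ((R : ℤ) + 1 - -(R : ℤ)).toNat - 1 = 2 * R := by omega
    rw [this]
    push_cast
    ring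
  have h5 : ∑ m ∈ (Icc (-(R : ℤ)) R).filter (fun m => m ≠ 0), wt K κ t m ≤ 2 * R * K + ‖G2 R K κ t‖ := by
    have h6 : (0 : ℝ) ≤ ∑ m ∈ (Icc (-(R : ℤ)) R).filter (fun m => m ≠ 0), wt K κ t m :=
      sum_nonneg fun m _ => wt_nonneg _ _ _ _
    calc ∑ m ∈ (Icc (-(R : ℤ)) R).filter (fun m => m ≠ 0), wt K κ t m
        = ‖((∑ m ∈ (Icc (-(R : ℤ)) R).filter (fun m => m ≠ 0), wt K κ t m : ℝ) : ℂ)‖ := by
          rw [Complex.norm_real, Real.norm_of_nonneg h6]
      _ ≤ ‖(((Icc (-(R : ℤ)) R).filter (fun m => m ≠ 0)).card * (K : ℂ) : ℂ)‖ + ‖G2 R K κ t‖ := by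
          rw [h2]
          exact norm_add_le _ _
      _ = 2 * R * K + ‖G2 R K κ t‖ := by
          rw [norm_mul, Complex.norm_natCast, Complex.norm_natCast, h3]
  have h7 := wt_le K κ t 0
  linarith

lemma G2_le (R K : ℕ) (κ : ℤ) (t : ZMod M) : ‖G2 R K κ t‖ ≤ 2 * R * K ^ 2 := by
  classical
  unfold G2
  refine (norm_sum_le _ _).trans ?_
  rw [sum_congr rfl fun a _ => norm_e t _, sum_const, nsmul_eq_mul, mul_one]
  unfold U
  rw [card_product]
  have h1 : ((Icc (-(R : ℤ)) R).filter (fun m => m ≠ 0)).card ≤ 2 * R := by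
    have h0 : (0 : ℤ) ∈ Icc (-(R : ℤ)) R := by
      rw [mem_Icc]
      constructor <;> simp
    have h4 : (Icc (-(R : ℤ)) R).filter (fun m => m ≠ 0) = (Icc (-(R : ℤ)) R).erase 0 := by
      ext m
      rw [mem_erase, mem_filter, and_comm]
    rw [h4, card_erase_of_mem h0, Int.card_Icc]
    omega
  have h2 : (univ.filter (fun c : Fin K × Fin K => c.1 ≠ c.2)).card ≤ K ^ 2 := by
    refine (card_filter_le _ _).trans (le_of_eq ?_)
    rw [card_univ, Fintype.card_prod, Fintype.card_fin]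
    ring
  exact_mod_cast Nat.mul_le_mul h1 h2

lemma sum_G2 (R K : ℕ) (κ : ℤ) (hκ : κ ≠ 0) (hM : 2 * κ.natAbs * R * K < M) :
    ∑ t : ZMod M, ‖G2 R K κ t‖ ^ 2 ≤ M * (16 * (D R).card * (D K).card * (K * K)) := by
  classical
  unfold G2
  have hval : ∀ u ∈ U R K, |κ * vl u| ≤ κ.natAbs * (R * K) := by
    rintro ⟨m, a, b⟩ hu
    unfold U at hu
    simp only [mem_product, mem_filter, mem_Icc, mem_univ, true_and] at hu
    unfold vl
    simp only
    rw [abs_mul, abs_mul, Int.abs_eq_natAbs κ]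
    have h1 : |m| ≤ R := abs_le.2 hu.1.1
    have h2 : |((a : ℕ) : ℤ) - ((b : ℕ) : ℤ)| ≤ K := by
      have := a.2
      have := b.2
      rw [abs_le]
      constructor <;> omega
    exact mul_le_mul_of_nonneg_left (mul_le_mul h1 h2 (abs_nonneg _) (by positivity)) (by positivity)
  rw [second_moment (U R K) (fun u => κ * vl u) (by
    intro a ha b hb
    have h1 := hval a ha
    have h2 := hval b hb
    have h3 : (2 * (κ.natAbs : ℤ) * R * K) < M := by exact_mod_cast hM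
    calc |κ * vl a - κ * vl b| ≤ |κ * vl a| + |κ * vl b| := abs_sub _ _
      _ ≤ κ.natAbs * (R * K) + κ.natAbs * (R * K) := add_le_add h1 h2
      _ < M := by linarith)]
  apply mul_le_mul_of_nonneg_left _ (Nat.cast_nonneg _)
  have h3 : (U R K ×ˢ U R K).filter (fun p => κ * vl p.1 = κ * vl p.2) =
      (U R K ×ˢ U R K).filter (fun p => vl p.1 = vl p.2) := by
    apply filter_congr
    intro p _
    exact mul_right_inj' hκ
  rw [h3]
  exact_mod_cast card_quad R K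

end

end Pool.Agent.W5h80.Bil
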