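import Pool.Agent.W5h80.Bil.E
import Pool.Agent.W5h80.Bil.F
import Pool.Agent.H373R2.T7.Minor

set_option autoImplicit false

/-! Correlations with shifts in thin families: almost all shifts. -/

namespace Pool.Agent.W5h80.Bil
open Finset
open Pool.Agent.H373R2.T7 (exI SupSmall ev_L' ev_log')
open Pool.Agent.H807R2.Dav (ee)

/-- averages over thin families of shifts -/
theorem thin_avg (f : ℕ → ℂ) (hf : ∀ n, ‖f n‖ ≤ 1) (hsup : SupSmall f) (h B C T U : ℕ) (hh : 1 ≤ h) (hB : 1 ≤ B) :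
    ∃ N₀ : ℕ, ∀ N : ℕ, N₀ ≤ N → ∀ (ι : Type) [Fintype ι] (v : ι → ℤ), (∀ i, |v i| ≤ B * N) →
      (EnZ h v : ℝ) * N ≤ Real.log N ^ C * (Fintype.card ι : ℝ) ^ (2 * h) →
      ∀ (g : ℕ → ℂ) (x : ℕ), x ≤ B * N → (∀ n, 1 ≤ n → n ≤ x → ‖g n‖ ≤ Real.log N ^ T) →
      ∀ c : ι → ℂ, (∀ i, ‖c i‖ ≤ 1) →
      ‖∑ i, c i * ∑ n ∈ Icc 1 x, g n * exI f (n + v i)‖ ≤ N * Fintype.card ι / Real.log N ^ U := by
  classical
  obtain ⟨A, hA⟩ : ∃ A, A = T * h + C + U * h + 1 := ⟨_, rfl⟩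
  obtain ⟨n0, h0⟩ := hsup A
  obtain ⟨n1, h1⟩ := ev_L' ((B : ℝ) ^ h * ((2 * B : ℝ) ^ (h - 1) * (2 * B) ^ 2) + 1)
  refine ⟨n0 + n1 + 3, ?_⟩
  intro N hN ι _ v hv hE g x hx hg c hc
  have hL := h1 N (by omega)
  have hN1 : (3 : ℝ) ≤ N := by exact_mod_cast (by omega : 3 ≤ N)
  have hN0 : (0 : ℝ) < N := by linarith
  have hBr : (1 : ℝ) ≤ B := by exact_mod_cast hB
  obtain ⟨Z, hZ⟩ : ∃ Z, Z = 2 * (B * N) := ⟨_, rfl⟩
  have hNZ : N ≤ Z := by
    have : N ≤ B * N := Nat.le_mul_of_pos_left N hB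
    omega
  have hZr : (Z : ℝ) = 2 * B * N := by rw [hZ]; push_cast; ring
  obtain ⟨ℓ, hℓ⟩ : ∃ ℓ, ℓ = Real.log (N : ℝ) := ⟨_, rfl⟩
  rw [← hℓ] at hL hE hg ⊢
  have hc0 : 0 ≤ (B : ℝ) ^ h * ((2 * B : ℝ) ^ (h - 1) * (2 * B) ^ 2) := by positivity
  have hℓ1 : 1 ≤ ℓ := by linarith
  have hℓ0 : 0 < ℓ := by linarith
  have hS : ∀ α : ℝ, ‖∑ m ∈ Icc 1 Z, f m * ee ((m : ℝ) * α)‖ ≤ 2 * B * N / ℓ ^ A := by
    intro α
    refine (h0 Z (by omega) α).trans ?_
    rw [hZr]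
    apply div_le_div_of_nonneg_left (by positivity) (by positivity)
    apply pow_le_pow_left₀ hℓ0.le
    rw [hℓ, ← hZr]
    exact Real.log_le_log hN0 (by exact_mod_cast hNZ)
  have key := thin_corr f g hf x Z (B * N) h hh v c hc (by push_cast; exact hv) (by omega) (2 * B * N / ℓ ^ A) (ℓ ^ T) hS
    (fun n hn => hg n (mem_Icc.1 hn).1 (mem_Icc.1 hn).2)
  obtain ⟨I, hI⟩ : ∃ I : ℝ, I = Fintype.card ι := ⟨_, rfl⟩
  rw [← hI] at hE ⊢
  have hI0 : 0 ≤ I := by rw [hI]; positivity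
  have hE0 : (0 : ℝ) ≤ EnZ h v := Nat.cast_nonneg _
  have hxr : (x : ℝ) ≤ B * N := by exact_mod_cast hx
  have key2 : (x * (ℓ ^ T) ^ 2) ^ h * ((Z : ℝ) ^ (h - 1) * ((2 * B * N / ℓ ^ A) ^ 2 * EnZ h v)) ≤
      (N * I / ℓ ^ U) ^ (2 * h) := by
    have a1 : (x * (ℓ ^ T) ^ 2) ^ h ≤ (B * N * (ℓ ^ T) ^ 2) ^ h :=
      pow_le_pow_left₀ (by positivity) (mul_le_mul_of_nonneg_right hxr (by positivity)) h
    have a2 : (EnZ h v : ℝ) ≤ ℓ ^ C * I ^ (2 * h) / N := by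
      rw [le_div_iff₀ hN0]
      exact hE
    have e1 : ℓ ^ A = ℓ ^ (T * h) * ℓ ^ C * ℓ ^ (U * h) * ℓ := by
      rw [hA, pow_succ, pow_add, pow_add]
    have e3 : (N : ℝ) ^ h * (N : ℝ) ^ (h - 1) * N = N ^ (2 * h) := by
      rw [mul_assoc, ← pow_succ, ← pow_add]
      congr 1
      omega
    calc (x * (ℓ ^ T) ^ 2) ^ h * ((Z : ℝ) ^ (h - 1) * ((2 * B * N / ℓ ^ A) ^ 2 * EnZ h v))
        ≤ (B * N * (ℓ ^ T) ^ 2) ^ h * ((2 * B * N : ℝ) ^ (h - 1) * ((2 * B * N / ℓ ^ A) ^ 2 * (ℓ ^ C * I ^ (2 * h) / N))) := by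
          rw [hZr]
          apply mul_le_mul a1 _ (by positivity) (by positivity)
          apply mul_le_mul_of_nonneg_left _ (by positivity)
          exact mul_le_mul_of_nonneg_left a2 (by positivity)
      _ = ((B : ℝ) ^ h * ((2 * B : ℝ) ^ (h - 1) * (2 * B) ^ 2)) * (ℓ ^ (T * h)) ^ 2 * ℓ ^ C * I ^ (2 * h) *
          ((N : ℝ) ^ h * (N : ℝ) ^ (h - 1) * N) / (ℓ ^ A) ^ 2 := by
          rw [mul_pow (B * N : ℝ), mul_pow (B : ℝ), mul_pow (2 * B : ℝ) (N : ℝ), ← pow_mul (ℓ ^ T), mul_comm 2 h,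
            pow_mul (ℓ ^ T), ← pow_mul ℓ T h]
          field_simp
      _ = ((B : ℝ) ^ h * ((2 * B : ℝ) ^ (h - 1) * (2 * B) ^ 2)) * I ^ (2 * h) * N ^ (2 * h) /
          (ℓ ^ C * (ℓ ^ (U * h)) ^ 2 * ℓ ^ 2) := by
          rw [e3, e1]
          field_simp
      _ ≤ ℓ * I ^ (2 * h) * N ^ (2 * h) / (ℓ ^ C * (ℓ ^ (U * h)) ^ 2 * ℓ ^ 2) := by
          apply div_le_div_of_nonneg_right _ (by positivity)
          apply mul_le_mul_of_nonneg_right _ (by positivity)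
          exact mul_le_mul_of_nonneg_right (by linarith) (by positivity)
      _ ≤ ℓ * I ^ (2 * h) * N ^ (2 * h) / (1 * (ℓ ^ (U * h)) ^ 2 * ℓ) := by
          apply div_le_div_of_nonneg_left (by positivity) (by positivity)
          apply mul_le_mul _ _ (by positivity) (by positivity)
          · exact mul_le_mul_of_nonneg_right (one_le_pow₀ hℓ1) (by positivity)
          · exact le_self_pow₀ hℓ1 (by norm_num)
      _ = (N * I / ℓ ^ U) ^ (2 * h) := by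
          rw [div_pow, mul_pow, ← pow_mul ℓ U, ← pow_mul ℓ (U * h)]
          have : U * h * 2 = U * (2 * h) := by ring
          rw [this]
          field_simp
  exact (pow_le_pow_iff_left₀ (norm_nonneg _) (by positivity) (by omega)).1 (key.trans key2)

/-- almost all shifts in thin families -/
theorem thin_prob (f : ℕ → ℂ) (hf : ∀ n, ‖f n‖ ≤ 1) (hsup : SupSmall f) (h B C T U : ℕ) (hh : 1 ≤ h) (hB : 1 ≤ B) :
    ∃ N₀ : ℕ, ∀ N : ℕ, N₀ ≤ N → ∀ (ι : Type) [Fintype ι] (v : ι → ℤ), (∀ i, |v i| ≤ B * N) →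
      (EnZ h v : ℝ) * N ≤ Real.log N ^ C * (Fintype.card ι : ℝ) ^ (2 * h) →
      ∀ L : ℕ, (L : ℝ) ≤ Real.log N ^ T → ∀ g : ℕ → ℕ → ℂ,
      (∀ l < L, ∀ n, 1 ≤ n → n ≤ B * N → ‖g l n‖ ≤ Real.log N ^ T) →
      ∀ E : Finset ι, (∀ i ∈ E, ∃ l < L, ∃ x : ℕ, x ≤ B * N ∧
        N / Real.log N ^ U < ‖∑ n ∈ Icc 1 x, g l n * exI f (n + v i)‖) →
      (E.card : ℝ) ≤ Fintype.card ι / Real.log N ^ U := by
  classical
  obtain ⟨U', hU'⟩ : ∃ U', U' = 3 * U + 2 * T + 1 := ⟨_, rfl⟩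
  obtain ⟨n0, h0⟩ := thin_avg f hf hsup h B C T U' hh hB
  obtain ⟨n1, h1⟩ := ev_L' (2 * (4 * B + 1) + 1)
  obtain ⟨n2, h2⟩ := ev_log' (U + T) 4
  refine ⟨n0 + n1 + n2 + 3, ?_⟩
  intro N hN ι _ v hv hE L hLT g hg E hEx
  have hL := h1 N (by omega)
  have hsq := h2 N (by omega)
  have hN1 : (3 : ℝ) ≤ N := by exact_mod_cast (by omega : 3 ≤ N)
  have hN0 : (0 : ℝ) < N := by linarith
  have hBr : (1 : ℝ) ≤ B := by exact_mod_cast hB
  have hav := h0 N (by omega) ι v hv hE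
  obtain ⟨ℓ, hℓ⟩ : ∃ ℓ, ℓ = Real.log (N : ℝ) := ⟨_, rfl⟩
  rw [← hℓ] at hL hE hg hLT hEx hsq hav ⊢
  have hℓ1 : 1 ≤ ℓ := by linarith
  have hℓ0 : 0 < ℓ := by linarith
  have hsN : √(N : ℝ) ≤ N := by
    rw [Real.sqrt_le_left (by linarith)]
    nlinarith
  -- the grid
  obtain ⟨P, hP⟩ : ∃ P, P = ℓ ^ (U + T) := ⟨_, rfl⟩
  have hP1 : 1 ≤ P := by rw [hP]; exact one_le_pow₀ hℓ1
  have hP0 : 0 < P := by linarith
  rw [← hP] at hsq
  obtain ⟨D, hD⟩ : ∃ D, D = ⌊(N : ℝ) / (2 * P)⌋₊ := ⟨_, rfl⟩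
  have hD1 : (D : ℝ) ≤ N / (2 * P) := by rw [hD]; exact Nat.floor_le (by positivity)
  have hD2 : (N : ℝ) / (4 * P) ≤ D := by
    have a1 : (N : ℝ) / (2 * P) < D + 1 := by rw [hD]; exact Nat.lt_floor_add_one _
    have a2 : 1 ≤ (N : ℝ) / (4 * P) := by
      rw [le_div_iff₀ (by positivity)]
      linarith
    have a3 : (N : ℝ) / (2 * P) = N / (4 * P) + N / (4 * P) := by
      field_simp
      ring
    linarith
  have hDpos : 0 < D := by
    have a2 : 1 ≤ (N : ℝ) / (4 * P) := by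
      rw [le_div_iff₀ (by positivity)]
      linarith
    exact_mod_cast (by linarith : (0 : ℝ) < D)
  obtain ⟨J, hJ⟩ : ∃ J, J = B * N / D := ⟨_, rfl⟩
  have hJr : (J : ℝ) ≤ 4 * B * P := by
    have a1 : (J : ℝ) ≤ ((B * N : ℕ) : ℝ) / D := by rw [hJ]; exact Nat.cast_div_le
    refine a1.trans ?_
    rw [div_le_iff₀ (by exact_mod_cast hDpos)]
    push_cast
    rw [div_le_iff₀ (by positivity)] at hD2
    calc (B * N : ℝ) ≤ B * (D * (4 * P)) := mul_le_mul_of_nonneg_left hD2 (by positivity)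
      _ = _ := by ring
  -- the classes
  obtain ⟨Q, hQ⟩ : ∃ Q : ℕ × ℕ → Finset ι, Q = fun p => univ.filter (fun i =>
    N / (2 * ℓ ^ U) < ‖∑ n ∈ Icc 1 (D * p.2), g p.1 n * exI f (n + v i)‖) := ⟨_, rfl⟩
  have hsub : E ⊆ (range L ×ˢ range (J + 1)).biUnion Q := by
    intro i hi
    obtain ⟨l, hl, x, hx, hlt⟩ := hEx i hi
    rw [mem_biUnion]
    refine ⟨(l, x / D), ?_, ?_⟩
    · rw [mem_product, mem_range, mem_range]
      refine ⟨hl, ?_⟩
      rw [hJ]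
      have := Nat.div_le_div_right (c := D) hx
      show x / D < B * N / D + 1
      omega
    · rw [hQ]
      simp only [mem_filter, mem_univ, true_and]
      have hx1 : D * (x / D) ≤ x := Nat.mul_div_le x D
      have hx2 : x < D * (x / D) + D := by
        have := Nat.lt_mul_div_succ x hDpos
        rw [mul_add, mul_one] at this
        exact this
      have e1 : ∑ n ∈ Icc 1 x, g l n * exI f (n + v i) = ∑ n ∈ Icc 1 (D * (x / D)), g l n * exI f (n + v i) +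
          ∑ n ∈ Ioc (D * (x / D)) x, g l n * exI f (n + v i) := by
        have e2 : Icc 1 x = Ioc 0 x := by ext n; rw [mem_Icc, mem_Ioc]; omega
        have e3 : Icc 1 (D * (x / D)) = Ioc 0 (D * (x / D)) := by ext n; rw [mem_Icc, mem_Ioc]; omega
        rw [e2, e3, sum_Ioc_consecutive _ (Nat.zero_le _) hx1]
      have e4 : ‖∑ n ∈ Ioc (D * (x / D)) x, g l n * exI f (n + v i)‖ ≤ N / (2 * ℓ ^ U) := by
        refine (norm_sum_le _ _).trans ?_
        have e5 : ∀ n ∈ Ioc (D * (x / D)) x, ‖g l n * exI f (n + v i)‖ ≤ ℓ ^ T := by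
          intro n hn
          rw [mem_Ioc] at hn
          rw [norm_mul]
          have e6 : ‖exI f (n + v i)‖ ≤ 1 := by
            unfold exI
            split_ifs
            · exact hf _
            · rw [norm_zero]; exact zero_le_one
          have e7 := hg l hl n (by omega) (by omega)
          calc ‖g l n‖ * ‖exI f (n + v i)‖ ≤ ℓ ^ T * 1 := mul_le_mul e7 e6 (norm_nonneg _) (by positivity)
            _ = ℓ ^ T := mul_one _
        refine (sum_le_sum e5).trans ?_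
        rw [sum_const, Nat.card_Ioc, nsmul_eq_mul]
        have e8 : ((x - D * (x / D) : ℕ) : ℝ) ≤ D := by exact_mod_cast (by omega : x - D * (x / D) ≤ D)
        calc ((x - D * (x / D) : ℕ) : ℝ) * ℓ ^ T ≤ D * ℓ ^ T := mul_le_mul_of_nonneg_right e8 (by positivity)
          _ ≤ N / (2 * P) * ℓ ^ T := mul_le_mul_of_nonneg_right hD1 (by positivity)
          _ = N / (2 * ℓ ^ U) := by
            rw [hP, pow_add]
            field_simp
      have e9 : ‖∑ n ∈ Icc 1 x, g l n * exI f (n + v i)‖ ≤ ‖∑ n ∈ Icc 1 (D * (x / D)), g l n * exI f (n + v i)‖ +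
          N / (2 * ℓ ^ U) := by
        rw [e1]
        exact (norm_add_le _ _).trans (by linarith)
      have e10 : (N : ℝ) / ℓ ^ U = N / (2 * ℓ ^ U) + N / (2 * ℓ ^ U) := by
        field_simp
        ring
      rw [e10] at hlt
      linarith
  obtain ⟨I, hI⟩ : ∃ I : ℝ, I = Fintype.card ι := ⟨_, rfl⟩
  rw [← hI] at hav ⊢
  have hI0 : 0 ≤ I := by rw [hI]; positivity
  have hcls : ∀ p ∈ range L ×ˢ range (J + 1), ((Q p).card : ℝ) ≤ 2 * I * ℓ ^ U / ℓ ^ U' := by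
    rintro ⟨l, j⟩ hp
    rw [mem_product, mem_range, mem_range] at hp
    have hxj : D * j ≤ B * N := by
      have h3 : j ≤ B * N / D := by rw [← hJ]; exact Nat.lt_succ_iff.1 hp.2
      exact (Nat.mul_le_mul_left D h3).trans (Nat.mul_div_le _ _)
    obtain ⟨s, hs⟩ : ∃ s : ι → ℂ, s = fun i => ∑ n ∈ Icc 1 (D * j), g l n * exI f (n + v i) := ⟨_, rfl⟩
    obtain ⟨c, hc⟩ : ∃ c : ι → ℂ, c = fun i => if i ∈ Q (l, j) then starRingEnd ℂ (s i) / ‖s i‖ else 0 := ⟨_, rfl⟩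
    have hc1 : ∀ i, ‖c i‖ ≤ 1 := by
      intro i
      rw [hc]
      simp only
      split_ifs
      · rw [norm_div, RCLike.norm_conj, Complex.norm_real, norm_norm]
        exact div_self_le_one _
      · rw [norm_zero]; exact zero_le_one
    have h3 := hav (g l) (D * j) hxj (fun n hn1 hn2 => hg l hp.1 n hn1 (hn2.trans hxj)) c hc1
    have h4 : ∑ i, c i * ∑ n ∈ Icc 1 (D * j), g l n * exI f (n + v i) = ((∑ i ∈ Q (l, j), ‖s i‖ : ℝ) : ℂ) := by
      have h5 : ∀ i, c i * ∑ n ∈ Icc 1 (D * j), g l n * exI f (n + v i) = if i ∈ Q (l, j) then ((‖s i‖ : ℝ) : ℂ) else 0 := by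
        intro i
        have h6 : ∑ n ∈ Icc 1 (D * j), g l n * exI f (n + v i) = s i := by rw [hs]
        rw [h6, hc]
        simp only
        split_ifs with h7
        · by_cases h8 : s i = 0
          · rw [h8]; simp
          · have h9 : ((‖s i‖ : ℝ) : ℂ) ≠ 0 := by
              rw [Ne, Complex.ofReal_eq_zero, norm_eq_zero]
              exact h8
            rw [div_mul_eq_mul_div, div_eq_iff h9, mul_comm, Complex.mul_conj']
            ring
        · rw [zero_mul]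
      rw [sum_congr rfl fun i _ => h5 i, Complex.ofReal_sum, ← sum_filter]
      congr 1
      ext i
      simp
    rw [h4, Complex.norm_real, Real.norm_of_nonneg (sum_nonneg fun i _ => norm_nonneg _)] at h3
    have h5 : ((Q (l, j)).card : ℝ) * (N / (2 * ℓ ^ U)) ≤ ∑ i ∈ Q (l, j), ‖s i‖ := by
      rw [← nsmul_eq_mul, ← sum_const]
      refine sum_le_sum fun i hi => ?_
      rw [hQ] at hi
      simp only [mem_filter, mem_univ, true_and] at hi
      rw [hs]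
      exact hi.le
    have h6 := h5.trans h3
    rw [← le_div_iff₀ (by positivity)] at h6
    refine h6.trans (le_of_eq ?_)
    field_simp
  have hcard : (E.card : ℝ) ≤ ∑ p ∈ range L ×ˢ range (J + 1), ((Q p).card : ℝ) := by
    exact_mod_cast (card_le_card hsub).trans card_biUnion_le
  refine hcard.trans ((sum_le_sum hcls).trans ?_)
  rw [sum_const, card_product, card_range, card_range, nsmul_eq_mul]
  push_cast
  have hJ1 : (J : ℝ) + 1 ≤ (4 * B + 1) * P := by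
    have : (4 * B + 1) * P = 4 * B * P + P := by ring
    rw [this]
    linarith
  calc (L : ℝ) * (J + 1) * (2 * I * ℓ ^ U / ℓ ^ U') ≤ ℓ ^ T * ((4 * B + 1) * P) * (2 * I * ℓ ^ U / ℓ ^ U') := by
        apply mul_le_mul_of_nonneg_right _ (by positivity)
        exact mul_le_mul hLT hJ1 (by positivity) (by positivity)
    _ = (2 * (4 * B + 1)) * (ℓ ^ T * P * ℓ ^ U * I / ℓ ^ U') := by ring
    _ ≤ ℓ * (ℓ ^ T * P * ℓ ^ U * I / ℓ ^ U') := by
        apply mul_le_mul_of_nonneg_right (by linarith) (by positivity)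
    _ = I / ℓ ^ U := by
        rw [hP, hU']
        have e1 : ℓ ^ (3 * U + 2 * T + 1) = ℓ ^ T * ℓ ^ (U + T) * ℓ ^ U * ℓ * ℓ ^ U := by ring
        rw [e1]
        field_simp

end Pool.Agent.W5h80.Bil
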