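import Pool.Agent.W5h80.Bil.G
import Pool.Agent.H373R2.T7.SupLiou

set_option autoImplicit false

/-! The Möbius function and shifted primes: shifts in thin families. -/

namespace Pool.Agent.W5h80.Bil
open Finset

/-- the correlation sum of the Möbius function and the shifted primes is large -/
def Large (Z : ℕ) (Δ : ℝ) {L : ℕ} (θ : Fin L → ℕ → ℂ) (y : ℤ) : Prop :=
  ∃ l, ∃ x : ℕ, x ≤ Z ∧ Δ < ‖∑ n ∈ Icc 1 x, θ l n * ((ArithmeticFunction.vonMangoldt n : ℝ) : ℂ) *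
    Pool.Agent.H373R2.T7.exI Pool.Agent.H373R2.T7.muC (n + y)‖

theorem mu_lam (h B C T U : ℕ) (hh : 1 ≤ h) : ∃ N₀ : ℕ, ∀ N : ℕ, N₀ ≤ N → ∀ (ι : Type) [Fintype ι] (v : ι → ℤ),
    (∀ i, |v i| ≤ B * N) → (EnZ h v : ℝ) * N ≤ Real.log N ^ C * (Fintype.card ι : ℝ) ^ (2 * h) →
    ∀ L : ℕ, (L : ℝ) ≤ Real.log N ^ T → ∀ θ : Fin L → ℕ → ℂ, (∀ l n, ‖θ l n‖ ≤ 1) →
    (Nat.card {i : ι // Large (B * N) (N / Real.log N ^ U) θ (v i)} : ℝ) ≤ Fintype.card ι / Real.log N ^ U := by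
  classical
  obtain ⟨N₀, h0⟩ := thin_prob Pool.Agent.H373R2.T7.muC Pool.Agent.H373R2.T7.muC_norm
    Pool.Agent.H373R2.T7.sup_muC h (B + 1) C (T + 2) U hh (by omega)
  refine ⟨N₀ + B + 8, ?_⟩
  intro N hN ι _ v hv hE L hL θ hθ
  have hNr : (8 : ℝ) ≤ N := by exact_mod_cast (by omega : 8 ≤ N)
  have hLog2 : 2 ≤ Real.log (N : ℝ) := by
    rw [Real.le_log_iff_exp_le (by linarith)]
    have h1 : Real.exp 2 = Real.exp 1 ^ 2 := by rw [← Real.exp_nat_mul]; norm_num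
    rw [h1]
    have h2 := Real.exp_one_lt_d9
    have h3 := Real.exp_pos 1
    nlinarith
  have hLog1 : 1 ≤ Real.log (N : ℝ) := by linarith
  have hΛ : ∀ n : ℕ, 1 ≤ n → n ≤ (B + 1) * N → ArithmeticFunction.vonMangoldt n ≤ Real.log N ^ 2 := by
    intro n hn1 hn
    refine ArithmeticFunction.vonMangoldt_le_log.trans ?_
    have h1 : Real.log (n : ℝ) ≤ Real.log ((N : ℝ) * N) := by
      apply Real.log_le_log (by exact_mod_cast hn1)
      have : n ≤ N * N := hn.trans (Nat.mul_le_mul_right _ (by omega))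
      exact_mod_cast this
    rw [Real.log_mul (by positivity) (by positivity)] at h1
    nlinarith
  have hNz : (0 : ℤ) ≤ N := by positivity
  have h1 := h0 N (by omega) ι v (fun i => by
    have := hv i
    push_cast
    linarith) hE L (hL.trans (pow_le_pow_right₀ hLog1 (by omega)))
    (fun l n => if hl : l < L then θ ⟨l, hl⟩ n * ((ArithmeticFunction.vonMangoldt n : ℝ) : ℂ) else 0) (by
      intro l hl n hn1 hn2
      simp only [hl, dif_pos]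
      rw [norm_mul, Complex.norm_real, Real.norm_eq_abs, abs_of_nonneg ArithmeticFunction.vonMangoldt_nonneg]
      calc ‖θ ⟨l, hl⟩ n‖ * ArithmeticFunction.vonMangoldt n ≤ 1 * Real.log N ^ 2 :=
            mul_le_mul (hθ _ n) (hΛ n hn1 hn2) ArithmeticFunction.vonMangoldt_nonneg zero_le_one
        _ = Real.log N ^ 2 := one_mul _
        _ ≤ _ := pow_le_pow_right₀ hLog1 (by omega))
    (univ.filter (fun i => Large (B * N) (N / Real.log N ^ U) θ (v i))) (by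
      intro i hi
      obtain ⟨l, x, hx, h2⟩ := (mem_filter.1 hi).2
      refine ⟨l, l.2, x, hx.trans (Nat.mul_le_mul_right _ (by omega)), lt_of_lt_of_eq h2 ?_⟩
      simp only [l.2, dif_pos])
  rw [Nat.card_eq_fintype_card, Fintype.card_subtype]
  exact h1

theorem mu_lam_bil (h B C T U d s : ℕ) (hh : 1 ≤ h) (hd : 1 ≤ d) (hs : 1 ≤ s) (κ : ℤ) (hκ : κ ≠ 0) :
    ∃ N₀ : ℕ, ∀ X Y : ℕ, N₀ ≤ X * Y → X ≤ Y ^ s → Y ≤ X ^ s →
      ∀ (ι lam : Type) [Fintype ι] [Fintype lam] (x : ι → Fin d → ℤ) (y : lam → Fin d → ℤ) (f : ι → ℤ) (g : lam → ℤ),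
      (∀ i k, |x i k| ≤ B * X) → (∀ j k, |y j k| ≤ B * Y) →
      (∀ p : ι × lam, |f p.1 + g p.2 + κ * dot (x p.1) (y p.2)| ≤ B * (X * Y)) →
      (EnV h x : ℝ) * X ^ d ≤ Real.log (X * Y) ^ C * (Fintype.card ι : ℝ) ^ (2 * h) →
      (EnV h y : ℝ) * Y ^ d ≤ Real.log (X * Y) ^ C * (Fintype.card lam : ℝ) ^ (2 * h) →
      ∀ L : ℕ, (L : ℝ) ≤ Real.log (X * Y) ^ T → ∀ θ : Fin L → ℕ → ℂ, (∀ l n, ‖θ l n‖ ≤ 1) →
      (Nat.card {p : ι × lam // Large (B * (X * Y)) (X * Y / Real.log (X * Y) ^ U) θ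
        (f p.1 + g p.2 + κ * dot (x p.1) (y p.2))} : ℝ) ≤
        Fintype.card ι * Fintype.card lam / Real.log (X * Y) ^ U := by
  classical
  obtain ⟨N₀, key⟩ := bil_transfer d h s B C hd hh hs κ hκ
    (fun N ι _ v => (∀ i, |v i| ≤ B * N) → ∀ L : ℕ, (L : ℝ) ≤ Real.log N ^ T → ∀ θ : Fin L → ℕ → ℂ,
      (∀ l n, ‖θ l n‖ ≤ 1) →
      (Nat.card {i : ι // Large (B * N) (N / Real.log N ^ U) θ (v i)} : ℝ) ≤ Fintype.card ι / Real.log N ^ U) (by
      intro B' C'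
      obtain ⟨N₁, h1⟩ := mu_lam (2 * h ^ 2 * (s + 1)) B C' T U (by
        have : 1 ≤ h ^ 2 := Nat.one_le_pow _ _ hh
        nlinarith)
      exact ⟨N₁, fun N hN ι _ v _ hE hv L hL θ hθ => h1 N hN ι v hv hE L hL θ hθ⟩)
  refine ⟨N₀, ?_⟩
  intro X Y hN hXY hYX ι lam _ _ x y f g hx hy hv hEx hEy L hL θ hθ
  have h3 := key X Y hN hXY hYX ι lam x y f g hx hy (fun i j => (le_abs_self _).trans (hv (i, j))) hEx hEy
    (fun p => by push_cast; exact hv p) L (by push_cast; exact hL) θ hθ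
  rw [Fintype.card_prod] at h3
  push_cast at h3
  exact h3

end Pool.Agent.W5h80.Bil
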